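import Mathlib

set_option autoImplicit false

namespace Pool.Agent.MP_d0fd9b_nt.H72

/-- The number of ideal classes `c` with `c ^ l = 1` in the ideal class group of the ring of
integers of the field `ℚ(√d)`, taken inside the complex numbers. -/
noncomputable def torsion (l : ℕ) (d : ℤ) : ℕ :=
  Nat.card {c : ClassGroup (NumberField.RingOfIntegers
    (IntermediateField.adjoin ℚ {z : ℂ | z ^ 2 = d})) // c ^ l = 1}

end Pool.Agent.MP_d0fd9b_nt.H72
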