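import Pool.Agent.MP_d0fd9b_nt.Count

/-! Cells of ideals of a quadratic ring: a primitive ideal of small norm in the inverse class and
a dyadic position of the generator. -/

set_option autoImplicit false

namespace Pool.Agent.MP_d0fd9b_nt.H72

open QuadraticAlgebra Ideal Finset

variable {a b : ℤ}

/-- complex embedding -/
noncomputable def ec (w : ℂ) (z : QuadraticAlgebra ℤ a b) : ℂ := z.re + z.im * w

lemma ec_mul {w : ℂ} (hw : w * w = a + b * w) (x y : QuadraticAlgebra ℤ a b) :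
    ec w (x * y) = ec w x * ec w y := by
  simp only [ec, re_mul, im_mul]
  push_cast
  linear_combination (-(x.im : ℂ) * y.im) * hw

lemma ec_norm {δ : ℂ} (hδ : δ * δ = b ^ 2 + 4 * a) (z : QuadraticAlgebra ℤ a b) :
    ec ((b + δ) / 2) z * ec ((b - δ) / 2) z = (z.norm : ℤ) := by
  simp only [ec, norm_def]
  push_cast
  linear_combination (-(z.im : ℂ) ^ 2 / 4) * hδ

/-- the positive form `u² + |D| v²` -/
def sz (z : QuadraticAlgebra ℤ a b) : ℤ := (2 * z.re + b * z.im) ^ 2 + |b ^ 2 + 4 * a| * z.im ^ 2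

lemma sz_nonneg (z : QuadraticAlgebra ℤ a b) : 0 ≤ sz z := by unfold sz; positivity

lemma ec_sz {δ : ℂ} (hδ : δ * δ = b ^ 2 + 4 * a) (z : QuadraticAlgebra ℤ a b) :
    2 * (‖ec ((b + δ) / 2) z‖ ^ 2 + ‖ec ((b - δ) / 2) z‖ ^ 2) = (sz z : ℝ) := by
  have e1 : ec ((b + δ) / 2) z = ((2 * z.re + b * z.im : ℤ) : ℂ) / 2 + z.im * δ / 2 := by
    simp only [ec]; push_cast; ring
  have e2 : ec ((b - δ) / 2) z = ((2 * z.re + b * z.im : ℤ) : ℂ) / 2 - z.im * δ / 2 := by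
    simp only [ec]; push_cast; ring
  have e3 : ‖δ‖ ^ 2 = |((b ^ 2 + 4 * a : ℤ) : ℝ)| := by
    rw [pow_two, ← norm_mul, hδ, ← Complex.norm_intCast]; push_cast; rfl
  have := parallelogram_law_with_norm ℂ (((2 * z.re + b * z.im : ℤ) : ℂ) / 2) (z.im * δ / 2)
  rw [e1, e2, this, sz]
  simp only [norm_div, norm_mul, Complex.norm_intCast, Complex.norm_ofNat, div_pow, mul_pow, sq_abs, e3]
  push_cast; ring

lemma exists_box' [IsDedekindDomain (QuadraticAlgebra ℤ a b)] (hb : |b| ≤ 1) {Δ : ℝ} (h1 : 1 ≤ Δ)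
    (hΔ : Δ ^ 2 = |((b ^ 2 + 4 * a : ℤ) : ℝ)|)
    {I : Ideal (QuadraticAlgebra ℤ a b)} (hI : I ≠ ⊥) :
    ∃ α ∈ I, α ≠ 0 ∧ (sz α : ℝ) ≤ 10 * absNorm I * Δ := by
  classical
  have hN : absNorm I ≠ 0 := fun h => hI (absNorm_eq_zero_iff.1 h)
  have hfin : Finite (QuadraticAlgebra ℤ a b ⧸ I) := (absNorm_ne_zero_iff I).1 hN
  let _ : Fintype (QuadraticAlgebra ℤ a b ⧸ I) := Fintype.ofFinite _
  have hc : Fintype.card (QuadraticAlgebra ℤ a b ⧸ I) = absNorm I := by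
    rw [absNorm_apply, Submodule.cardQuot_apply, Nat.card_eq_fintype_card]
  set n : ℝ := ((absNorm I : ℕ) : ℝ) with hn
  have n0 : 0 < n := by rw [hn]; exact_mod_cast Nat.pos_of_ne_zero hN
  set s := √(n * Δ) with hs
  set t := √(n / Δ) with ht
  have s2 : s ^ 2 = n * Δ := Real.sq_sqrt (by positivity)
  have t2 : t ^ 2 = n / Δ := Real.sq_sqrt (by positivity)
  have s0 : 0 < s := Real.sqrt_pos.2 (by positivity)
  have t0 : 0 < t := Real.sqrt_pos.2 (by positivity)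
  have st : s * t = n := by
    rw [hs, ht, ← Real.sqrt_mul (by positivity), show n * Δ * (n / Δ) = n ^ 2 by field_simp,
      Real.sqrt_sq n0.le]
  have ts : t ≤ s := Real.sqrt_le_sqrt (by
    rw [div_le_iff₀ (by linarith)]; nlinarith [mul_nonneg n0.le (sub_nonneg.2 h1)])
  let z : ℕ × ℕ → QuadraticAlgebra ℤ a b := fun y => ⟨y.1, y.2⟩
  obtain ⟨y, hy, y', hy', hne, he⟩ := exists_ne_map_eq_of_card_lt_of_maps_to
    (s := range (⌊s⌋₊ + 1) ×ˢ range (⌊t⌋₊ + 1)) (t := univ)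
    (f := fun y => Ideal.Quotient.mk I (z y)) (by
      rw [card_product, card_range, card_range, card_univ, hc]
      have : n < ((⌊s⌋₊ + 1) * (⌊t⌋₊ + 1) : ℕ) := by
        push_cast
        rw [← st]
        exact mul_lt_mul'' (Nat.lt_floor_add_one s) (Nat.lt_floor_add_one t) s0.le t0.le
      rw [hn] at this
      exact_mod_cast this) (fun y _ => by simp)
  simp only [mem_product, mem_range, Nat.lt_succ_iff] at hy hy'
  have q1 : (y.1 : ℝ) ≤ s := (Nat.le_floor_iff s0.le).1 hy.1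
  have q2 : (y'.1 : ℝ) ≤ s := (Nat.le_floor_iff s0.le).1 hy'.1
  have q3 : (y.2 : ℝ) ≤ t := (Nat.le_floor_iff t0.le).1 hy.2
  have q4 : (y'.2 : ℝ) ≤ t := (Nat.le_floor_iff t0.le).1 hy'.2
  have r1 : |(y.1 : ℝ) - y'.1| ≤ s := by
    rw [abs_le]; constructor <;> linarith [Nat.cast_nonneg (α := ℝ) y.1, Nat.cast_nonneg (α := ℝ) y'.1]
  have r2 : |(y.2 : ℝ) - y'.2| ≤ t := by
    rw [abs_le]; constructor <;> linarith [Nat.cast_nonneg (α := ℝ) y.2, Nat.cast_nonneg (α := ℝ) y'.2]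
  refine ⟨z y - z y', Ideal.Quotient.eq.1 he, fun h => hne ?_, ?_⟩
  · have h2 := congrArg QuadraticAlgebra.im h
    have h3 := congrArg QuadraticAlgebra.re h
    simp only [im_sub, re_sub, z, im_zero, re_zero] at h2 h3
    exact Prod.ext (by omega) (by omega)
  · have hb' : |(b : ℝ)| ≤ 1 := by exact_mod_cast hb
    have r3 : |2 * ((y.1 : ℝ) - y'.1) + b * ((y.2 : ℝ) - y'.2)| ≤ 3 * s := by
      refine (abs_add_le _ _).trans ?_
      rw [abs_mul, abs_mul, abs_two]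
      nlinarith [abs_nonneg ((y.2 : ℝ) - y'.2), abs_nonneg (b : ℝ)]
    have r4 := pow_le_pow_left₀ (abs_nonneg _) r3 2
    have r5 := pow_le_pow_left₀ (abs_nonneg _) r2 2
    rw [sq_abs] at r4 r5
    simp only [sz, z, re_sub, im_sub]
    rw [Int.cast_add, Int.cast_mul (|b ^ 2 + 4 * a|), Int.cast_abs, ← hΔ]
    push_cast
    have r6 : Δ ^ 2 * ((y.2 : ℝ) - y'.2) ^ 2 ≤ Δ ^ 2 * (n / Δ) := by rw [← t2]; gcongr
    have r7 : Δ ^ 2 * (n / Δ) = n * Δ := by field_simp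
    nlinarith

lemma exists_data' [IsDedekindDomain (QuadraticAlgebra ℤ a b)] (hb : |b| ≤ 1) {Δ : ℝ} (h1 : 1 ≤ Δ)
    (hΔ : Δ ^ 2 = |((b ^ 2 + 4 * a : ℤ) : ℝ)|)
    {I : Ideal (QuadraticAlgebra ℤ a b)} (hI : I ≠ ⊥) :
    ∃ (α : QuadraticAlgebra ℤ a b) (m c : ℕ), α ≠ 0 ∧ 0 < m ∧ m ≤ absNorm (JJ a b m c) ∧ c < m ∧
      (m : ℤ) ∣ (c : ℤ) ^ 2 + b * c - a ∧ I * JJ a b m c = span {α} ∧
      (sz α : ℝ) ≤ 10 * absNorm I * Δ := by
  classical
  have hex : ∃ n : ℕ, ∃ α ∈ I, α ≠ 0 ∧ (sz α).natAbs = n := by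
    obtain ⟨α, h2, h3, -⟩ := exists_box' hb h1 hΔ hI
    exact ⟨_, α, h2, h3, rfl⟩
  obtain ⟨α, αI, α0, hn⟩ := Nat.find_spec hex
  have hmin : ∀ β ∈ I, β ≠ 0 → sz α ≤ sz β := fun β h2 h3 => by
    have := Nat.find_min' hex ⟨β, h2, h3, rfl⟩
    have := sz_nonneg α
    have := sz_nonneg β
    omega
  obtain ⟨J, hJ⟩ : I ∣ span {α} := dvd_iff_le.2 ((span_singleton_le_iff_mem _).2 αI)
  have J0 : J ≠ ⊥ := by
    rintro rfl
    rw [mul_bot, span_singleton_eq_bot] at hJ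
    exact α0 hJ
  let S : AddSubgroup ℤ :=
    { carrier := {y | ∃ z ∈ J, z.im = y}
      add_mem' := by
        rintro _ _ ⟨x, hx, rfl⟩ ⟨y, hy, rfl⟩
        exact ⟨x + y, J.add_mem hx hy, rfl⟩
      zero_mem' := ⟨0, J.zero_mem, rfl⟩
      neg_mem' := by
        rintro _ ⟨x, hx, rfl⟩
        exact ⟨-x, J.neg_mem hx, rfl⟩ }
  obtain ⟨d, hd⟩ := Int.subgroup_cyclic S
  have hS : ∀ y, y ∈ S ↔ d ∣ y := fun y => by
    rw [hd, AddSubgroup.mem_closure_singleton]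
    exact ⟨fun ⟨n, h⟩ => ⟨n, by rw [← h]; simp [mul_comm]⟩, fun ⟨n, h⟩ => ⟨n, by simp [h, mul_comm]⟩⟩
  have hle : J ≤ span {(d : QuadraticAlgebra ℤ a b)} := fun z hz => by
    obtain ⟨v, hv⟩ := (hS _).1 ⟨z, hz, rfl⟩
    obtain ⟨u, hu⟩ := (hS _).1 ⟨_, J.mul_mem_left omega hz, rfl⟩
    rw [mem_span_singleton]
    refine ⟨⟨u - b * v, v⟩, ?_⟩
    simp only [im_mul, omega_re, omega_im] at hu
    ext
    · simp; linear_combination hu - b * hv
    · simp [hv]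
  have hα : α ∈ span {(d : QuadraticAlgebra ℤ a b)} * I := by
    rw [mul_comm]
    exact Ideal.mul_mono_right hle (hJ ▸ mem_span_singleton_self α)
  obtain ⟨β, βI, hβ⟩ := mem_span_singleton_mul.1 hα
  have β0 : β ≠ 0 := fun h => α0 (by rw [← hβ, h, mul_zero])
  have d0 : d ≠ 0 := by rintro rfl; exact α0 (by simpa using hβ.symm)
  have e : sz α = d ^ 2 * sz β := by rw [← hβ]; simp [sz]; ring
  have sβ : 0 < sz β := by
    have hD : (0 : ℤ) < |b ^ 2 + 4 * a| := by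
      have : (0 : ℝ) < |((b ^ 2 + 4 * a : ℤ) : ℝ)| := by rw [← hΔ]; positivity
      exact_mod_cast this
    rcases eq_or_ne β.im 0 with h | h
    · have : β.re ≠ 0 := fun h' => β0 (by ext <;> simp [h, h'])
      simp only [sz, h, mul_zero, add_zero]; positivity
    · unfold sz; positivity
  have hd1 : d.natAbs = 1 := by
    have h2 := hmin β βI β0
    have p2 : 0 < d.natAbs := Int.natAbs_pos.2 d0
    by_contra hne
    have p3 : (2 : ℤ) ≤ |d| := by rw [← Int.natCast_natAbs]; omega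
    have p4 := pow_le_pow_left₀ (by norm_num) p3 2
    rw [sq_abs] at p4
    nlinarith
  obtain ⟨z, hz, z1⟩ := (hS 1).2 (Int.natAbs_dvd.1 (by rw [hd1]; simp))
  obtain ⟨m, c, m0, mle, cm, hdv, rfl⟩ := eq_JJ J0 hz z1
  refine ⟨α, m, c, α0, m0, mle, cm, hdv, hJ.symm, ?_⟩
  obtain ⟨γ, h2, h3, h4⟩ := exists_box' hb h1 hΔ hI
  exact le_trans (by exact_mod_cast hmin γ h2 h3) h4

theorem cells [IsDedekindDomain (QuadraticAlgebra ℤ a b)] (hb : |b| ≤ 1) {Δ : ℝ} (h1 : 1 ≤ Δ)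
    (hΔ : Δ ^ 2 = |((b ^ 2 + 4 * a : ℤ) : ℝ)|) {δ : ℂ} (hδ : δ * δ = b ^ 2 + 4 * a) {Y k : ℕ}
    (hY : 5 * Δ ≤ Y) (hk : 25 * Δ ^ 2 < 2 ^ k) :
    ∃ F : Ideal (QuadraticAlgebra ℤ a b) → ((_ : ℕ) × ℕ) × ℕ,
      (∀ I, I ≠ ⊥ → F I ∈ (Icc 1 Y).sigma (roots a b) ×ˢ range k) ∧
      ∀ I I', I ≠ ⊥ → I' ≠ ⊥ → F I = F I' → ∃ (J : Ideal (QuadraticAlgebra ℤ a b))
        (α α' : QuadraticAlgebra ℤ a b), α ≠ 0 ∧ α' ≠ 0 ∧ I * J = span {α} ∧ I' * J = span {α'} ∧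
        ‖ec ((b + δ) / 2) α‖ * ‖ec ((b - δ) / 2) α'‖ ≤
          2 * (‖ec ((b - δ) / 2) α‖ * ‖ec ((b + δ) / 2) α'‖) ∧
        ‖ec ((b + δ) / 2) α'‖ * ‖ec ((b - δ) / 2) α‖ ≤
          2 * (‖ec ((b - δ) / 2) α'‖ * ‖ec ((b + δ) / 2) α‖) := by
  classical
  choose! α m c α0 m0 mle cm hdv hsp hsz using
    fun (I : Ideal (QuadraticAlgebra ℤ a b)) (hI : I ≠ ⊥) => exists_data' hb h1 hΔ hI
  let r : Ideal (QuadraticAlgebra ℤ a b) → ℝ := fun I =>
    5 * Δ * ‖ec ((b + δ) / 2) (α I)‖ / ‖ec ((b - δ) / 2) (α I)‖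
  have key : ∀ I, I ≠ ⊥ → (m I : ℝ) ≤ 5 * Δ ∧ 0 < ‖ec ((b + δ) / 2) (α I)‖ ∧
      0 < ‖ec ((b - δ) / 2) (α I)‖ ∧ 1 ≤ r I ∧ r I ≤ 25 * Δ ^ 2 := fun I hI => by
    have hN : absNorm I ≠ 0 := fun h => hI (absNorm_eq_zero_iff.1 h)
    have n0 : (0 : ℝ) < absNorm I := by exact_mod_cast Nat.pos_of_ne_zero hN
    have hnorm : (α I).norm.natAbs = absNorm I * absNorm (JJ a b (m I) (c I)) := by
      rw [← map_mul, hsp I hI, absNorm_span_singleton, alg_norm]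
    have hprod : (absNorm I : ℝ) * m I ≤ ‖ec ((b + δ) / 2) (α I)‖ * ‖ec ((b - δ) / 2) (α I)‖ := by
      rw [← norm_mul, ec_norm hδ, Complex.norm_intCast, ← Int.cast_abs, ← Int.natCast_natAbs, hnorm]
      exact_mod_cast Nat.mul_le_mul_left _ (mle I hI)
    have h2 := hsz I hI
    rw [← ec_sz hδ] at h2
    have m1 : (1 : ℝ) ≤ m I := by exact_mod_cast m0 I hI
    simp only [r]
    have x0 := norm_nonneg (ec ((b + δ) / 2) (α I))
    have y0 := norm_nonneg (ec ((b - δ) / 2) (α I))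
    generalize ‖ec ((b + δ) / 2) (α I)‖ = x at *
    generalize ‖ec ((b - δ) / 2) (α I)‖ = y at *
    generalize (absNorm I : ℝ) = n at *
    have p1 : n ≤ x * y := by nlinarith
    have x1 : 0 < x := by
      rcases x0.eq_or_lt with h | h
      · rw [← h] at p1; linarith
      · exact h
    have y1 : 0 < y := by
      rcases y0.eq_or_lt with h | h
      · rw [← h] at p1; linarith
      · exact h
    have p2 : n * Δ ≤ x * y * Δ := by gcongr
    refine ⟨le_of_mul_le_mul_left (a := n) (by nlinarith [sq_nonneg (x - y)]) n0, x1, y1, ?_, ?_⟩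
    · rw [le_div_iff₀ y1]
      exact le_of_mul_le_mul_left (a := y) (by nlinarith [sq_nonneg x]) y1
    · rw [div_le_iff₀ y1]
      have : x ≤ 5 * Δ * y := le_of_mul_le_mul_left (a := x) (by nlinarith [sq_nonneg y]) x1
      nlinarith
  have lab : ∀ I, I ≠ ⊥ → (2 : ℝ) ^ Nat.log 2 ⌊r I⌋₊ ≤ r I ∧ r I < 2 * 2 ^ Nat.log 2 ⌊r I⌋₊ :=
    fun I hI => by
      obtain ⟨-, -, -, h2, -⟩ := key I hI
      have h3 : ⌊r I⌋₊ ≠ 0 := (Nat.floor_pos.2 h2).ne'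
      constructor
      · refine le_trans ?_ (Nat.floor_le (by linarith))
        exact_mod_cast Nat.pow_log_le_self 2 h3
      · refine (Nat.lt_floor_add_one _).trans_le ?_
        have := Nat.lt_pow_succ_log_self (b := 2) (by norm_num) ⌊r I⌋₊
        rw [Nat.succ_eq_add_one, pow_succ, mul_comm] at this
        exact_mod_cast this
  have rel : ∀ I I', I ≠ ⊥ → I' ≠ ⊥ → Nat.log 2 ⌊r I⌋₊ = Nat.log 2 ⌊r I'⌋₊ →
      ‖ec ((b + δ) / 2) (α I)‖ * ‖ec ((b - δ) / 2) (α I')‖ ≤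
        2 * (‖ec ((b - δ) / 2) (α I)‖ * ‖ec ((b + δ) / 2) (α I')‖) := fun I I' hI hI' h => by
    have h2 := (lab I hI).2
    have h3 := (lab I' hI').1
    rw [h] at h2
    have h4 : r I ≤ 2 * r I' := by linarith
    obtain ⟨-, -, y1, -⟩ := key I hI
    obtain ⟨-, -, y2, -⟩ := key I' hI'
    simp only [r] at h4
    rw [← mul_div_assoc, div_le_div_iff₀ y1 y2] at h4
    exact le_of_mul_le_mul_left (a := 5 * Δ) (by linarith) (by linarith)
  refine ⟨fun I => (⟨m I, c I⟩, Nat.log 2 ⌊r I⌋₊), fun I hI => ?_, fun I I' hI hI' h => ?_⟩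
  · obtain ⟨k1, -, -, -, k2⟩ := key I hI
    simp only [mem_product, mem_sigma, mem_Icc, roots, mem_filter, mem_range]
    refine ⟨⟨⟨m0 I hI, by exact_mod_cast k1.trans hY⟩, cm I hI, hdv I hI⟩, ?_⟩
    have := ((lab I hI).1.trans k2).trans_lt hk
    exact (pow_lt_pow_iff_right₀ one_lt_two).1 this
  · simp only [Prod.mk.injEq, Sigma.mk.injEq, heq_eq_eq] at h
    refine ⟨JJ a b (m I) (c I), α I, α I', α0 I hI, α0 I' hI', hsp I hI, ?_,
      rel I I' hI hI' h.2, rel I' I hI' hI h.2.symm⟩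
    rw [h.1.1, h.1.2]; exact hsp I' hI'

lemma card_roots_le {f n : ℕ} (f0 : 0 < f) (hD : ∀ e : ℤ, e ^ 2 ∣ b ^ 2 + 4 * a → e ^ 2 ∣ n → e ∣ f)
    (hn : 0 < n) : (roots a b n).card ≤ f * n.divisors.card := by
  rcases (roots a b n).eq_empty_or_nonempty with h | ⟨c₀, hc₀⟩
  · simp [h]
  simp only [roots, mem_filter, mem_range] at hc₀
  have n0 : (n : ℤ) ≠ 0 := by exact_mod_cast hn.ne'
  rw [← card_range f, ← card_product]
  refine card_le_card_of_injOn (fun c => (f * c / n, Int.gcd n ((c : ℤ) - c₀))) (fun c hc => ?_)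
    fun c hc c' hc' h => ?_
  · simp only [roots, coe_filter, mem_range, Set.mem_ofPred_eq] at hc
    simp only [coe_product, coe_range, Set.mem_prod, Set.mem_Iio, mem_coe, Nat.mem_divisors]
    refine ⟨(Nat.div_lt_iff_lt_mul hn).2 (Nat.mul_lt_mul_of_pos_left hc.1 f0), ?_, hn.ne'⟩
    exact_mod_cast Int.gcd_dvd_left (n : ℤ) ((c : ℤ) - c₀)
  · simp only [roots, coe_filter, mem_range, Set.mem_ofPred_eq] at hc hc'
    simp only [Prod.mk.injEq] at h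
    obtain ⟨h1, h2⟩ := h
    have aux : ∀ x : ℤ, (n : ℤ) ∣ x ^ 2 + b * x - a → ∀ g k : ℤ, g = Int.gcd n (x - c₀) → n = g * k →
        g ∣ x - c₀ ∧ k ∣ x + c₀ + b := fun x hx g k hg hk => by
      have g0 : g ≠ 0 := by rintro rfl; exact n0 (by simpa using hk)
      have d1 : g ∣ x - c₀ := hg ▸ Int.gcd_dvd_right _ _
      refine ⟨d1, ?_⟩
      have d2 : (n : ℤ) ∣ (x - c₀) * (x + c₀ + b) := by
        exact (dvd_sub hx hc₀.2).trans (dvd_of_eq (by ring))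
      obtain ⟨u, v, huv⟩ : ∃ u v : ℤ, g = n * u + (x - c₀) * v := ⟨_, _, hg ▸ Int.gcd_eq_gcd_ab _ _⟩
      have d3 : g * k ∣ g * (x + c₀ + b) := by
        rw [← hk]
        conv_rhs => rw [huv]
        rw [add_mul, mul_assoc, mul_right_comm (x - c₀)]
        exact dvd_add (dvd_mul_right _ _) (d2.mul_right _)
      exact (mul_dvd_mul_iff_left g0).1 d3
    obtain ⟨k, hk⟩ := Int.gcd_dvd_left (n : ℤ) ((c : ℤ) - c₀)
    obtain ⟨d1, d2⟩ := aux c hc.2 _ k rfl hk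
    obtain ⟨d3, d4⟩ := aux c' hc'.2 _ k (by rw [h2]) hk
    generalize ((Int.gcd n ((c : ℤ) - c₀) : ℕ) : ℤ) = g at *
    have d5 : g ∣ (c : ℤ) - c' := (dvd_sub d1 d3).trans (dvd_of_eq (by ring))
    have d6 : k ∣ (c : ℤ) - c' := (dvd_sub d2 d4).trans (dvd_of_eq (by ring))
    have e1 := Int.gcd_dvd_left g k
    have e2 := Int.gcd_dvd_right g k
    have e3 : ((Int.gcd g k : ℕ) : ℤ) ∣ f := by
      have e4 : ((Int.gcd g k : ℕ) : ℤ) ∣ 2 * c₀ + b :=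
        (dvd_sub (e2.trans d2) (e1.trans d1)).trans (dvd_of_eq (by ring))
      have e5 : ((Int.gcd g k : ℕ) : ℤ) ^ 2 ∣ n := by rw [hk, pow_two]; exact mul_dvd_mul e1 e2
      exact hD _ ((dvd_sub (pow_dvd_pow_of_dvd e4 2) ((e5.trans hc₀.2).mul_left 4)).trans
        (dvd_of_eq (by ring))) e5
    have e6 : (n : ℤ) ∣ f * ((c : ℤ) - c') := by
      obtain ⟨w, hw⟩ := e3
      obtain ⟨u, v, huv⟩ : ∃ u v : ℤ, ((Int.gcd g k : ℕ) : ℤ) = g * u + k * v :=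
        ⟨_, _, Int.gcd_eq_gcd_ab _ _⟩
      obtain ⟨s, hs⟩ := d5
      obtain ⟨t, ht⟩ := d6
      rw [hk, hw, huv]
      exact ⟨(u * t + v * s) * w, by linear_combination (g * u * w) * ht + (k * v * w) * hs⟩
    have q1 := Nat.div_add_mod (f * c) n
    have q2 := Nat.div_add_mod (f * c') n
    have q3 := Nat.mod_lt (f * c) hn
    have q4 := Nat.mod_lt (f * c') hn
    rw [h1] at q1
    rw [mul_sub, ← Nat.cast_mul, ← Nat.cast_mul] at e6
    have := Int.eq_zero_of_abs_lt_dvd e6 (by rw [abs_lt]; constructor <;> omega)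
    exact Nat.eq_of_mul_eq_mul_left f0 (by omega)

end Pool.Agent.MP_d0fd9b_nt.H72
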