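import Mathlib

/-! A reduced basis of a plane lattice with respect to a parallelogram. -/

set_option autoImplicit false

namespace Pool.Agent.MP_d0fd9b_nt.H72

open Finset

lemma floor_close {x y s : ℝ} (hs : 0 < s) (hx : 0 ≤ x) (hy : 0 ≤ y) (h : ⌊x / s⌋₊ = ⌊y / s⌋₊) :
    |x - y| < s := by
  have p1 := Nat.floor_le (div_nonneg hx hs.le)
  have p2 := Nat.floor_le (div_nonneg hy hs.le)
  have p3 := Nat.lt_floor_add_one (x / s)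
  have p4 := Nat.lt_floor_add_one (y / s)
  rw [h] at p1 p3
  rw [le_div_iff₀ hs] at p1 p2
  rw [div_lt_iff₀ hs] at p3 p4
  rw [abs_lt]; constructor <;> linarith

lemma skew_box {w s₁ s₂ : ℝ} (hw : 1 ≤ w) (h1 : 0 < s₁) (h2 : 0 < s₂) {D₁ D₂ : ℕ} (d1 : 0 < D₁)
    (d2 : 0 < D₂) (ρ s : ℤ) (h : 16 * w * (D₁ * D₂) ≤ s₁ * s₂) :
    ∃ c e : ℤ, (c ≠ 0 ∨ e ≠ 0) ∧ (D₁ : ℤ) ∣ c + ρ * e ∧ (D₂ : ℤ) ∣ e - s * c ∧
      |c + e * w| ≤ s₁ ∧ |c - e * w| ≤ s₂ := by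
  set T := s₁ + s₂ with hT
  have T0 : 0 < T := by positivity
  have w0 : 0 < w := by linarith
  have d1' : (0 : ℤ) < D₁ := by exact_mod_cast d1
  have d2' : (0 : ℤ) < D₂ := by exact_mod_cast d2
  have bd : ∀ y ∈ range (⌊T⌋₊ + 1) ×ˢ range (⌊T / w⌋₊ + 1), (y.1 : ℝ) ≤ T ∧ (y.2 : ℝ) * w ≤ T ∧
      (0 : ℝ) ≤ y.1 ∧ 0 ≤ (y.2 : ℝ) * w := fun y hy => by
    simp only [mem_product, mem_range, Nat.lt_succ_iff] at hy
    exact ⟨(Nat.le_floor_iff T0.le).1 hy.1,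
      (le_div_iff₀ w0).1 ((Nat.le_floor_iff (by positivity)).1 hy.2), by positivity, by positivity⟩
  obtain ⟨y, hy, y', hy', hne, he⟩ := exists_ne_map_eq_of_card_lt_of_maps_to
    (s := range (⌊T⌋₊ + 1) ×ˢ range (⌊T / w⌋₊ + 1))
    (t := (Ico (0 : ℤ) D₁ ×ˢ Ico (0 : ℤ) D₂) ×ˢ range (⌊2 * T / s₁⌋₊ + 1) ×ˢ range (⌊2 * T / s₂⌋₊ + 1))
    (f := fun y => ((((y.1 : ℤ) + ρ * y.2) % D₁, ((y.2 : ℤ) - s * y.1) % D₂),
      ⌊(y.1 + y.2 * w) / s₁⌋₊, ⌊(y.1 - y.2 * w + T) / s₂⌋₊)) (by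
      simp only [card_product, card_range, Int.card_Ico, sub_zero, Int.toNat_natCast]
      rw [← Nat.cast_lt (α := ℝ)]
      push_cast
      have a1 : (⌊2 * T / s₁⌋₊ : ℝ) + 1 ≤ 3 * T / s₁ := by
        have := Nat.floor_le (show 0 ≤ 2 * T / s₁ by positivity)
        have : 1 ≤ T / s₁ := by rw [le_div_iff₀ h1]; linarith
        simp only [mul_div_assoc] at *; linarith
      have a2 : (⌊2 * T / s₂⌋₊ : ℝ) + 1 ≤ 3 * T / s₂ := by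
        have := Nat.floor_le (show 0 ≤ 2 * T / s₂ by positivity)
        have : 1 ≤ T / s₂ := by rw [le_div_iff₀ h2]; linarith
        simp only [mul_div_assoc] at *; linarith
      calc _ ≤ (D₁ * D₂ : ℝ) * (3 * T / s₁ * (3 * T / s₂)) := by gcongr
        _ = 9 * (w * (D₁ * D₂)) / (s₁ * s₂) * (T * (T / w)) := by field_simp; norm_num
        _ ≤ 1 * (T * (T / w)) := by
          gcongr
          rw [div_le_one (by positivity)]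
          have : (0 : ℝ) ≤ w * (D₁ * D₂) := by positivity
          linarith
        _ < _ := by
          rw [one_mul]
          exact mul_lt_mul'' (Nat.lt_floor_add_one _) (Nat.lt_floor_add_one _) T0.le (by positivity))
    (fun y hy => by
      obtain ⟨b1, b2, b3, b4⟩ := bd y hy
      simp only [coe_product, Set.mem_prod, coe_Ico, Set.mem_Ico, coe_range, Set.mem_Iio,
        Nat.lt_succ_iff]
      refine ⟨⟨⟨Int.emod_nonneg _ d1'.ne', Int.emod_lt_of_pos _ d1'⟩, Int.emod_nonneg _ d2'.ne',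
        Int.emod_lt_of_pos _ d2'⟩, Nat.floor_le_floor ?_, Nat.floor_le_floor ?_⟩ <;> gcongr <;> linarith)
  obtain ⟨b1, b2, b3, b4⟩ := bd y hy
  obtain ⟨b5, b6, b7, b8⟩ := bd y' hy'
  simp only [Prod.mk.injEq] at he
  obtain ⟨⟨e1, e2⟩, e3, e4⟩ := he
  have f3 := floor_close h1 (by linarith) (by linarith) e3
  have f4 := floor_close h2 (by linarith) (by linarith) e4
  refine ⟨y.1 - y'.1, y.2 - y'.2, ?_, (Int.ModEq.dvd e1.symm).trans (dvd_of_eq (by ring)),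
    (Int.ModEq.dvd e2.symm).trans (dvd_of_eq (by ring)), ?_, ?_⟩
  · by_contra hc
    rw [not_or, not_not, not_not] at hc
    exact hne (Prod.ext (by omega) (by omega))
  · refine le_of_eq_of_le ?_ f3.le
    push_cast; congr 1; ring
  · refine le_of_eq_of_le ?_ f4.le
    push_cast; congr 1; ring

lemma det_dvd {D₁ D₂ : ℕ} (hD : IsCoprime (D₁ : ℤ) D₂) {ρ s c e c' e' : ℤ}
    (h1 : (D₁ : ℤ) ∣ c + ρ * e) (h2 : (D₂ : ℤ) ∣ e - s * c) (h1' : (D₁ : ℤ) ∣ c' + ρ * e')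
    (h2' : (D₂ : ℤ) ∣ e' - s * c') : ((D₁ * D₂ : ℕ) : ℤ) ∣ c * e' - c' * e := by
  push_cast
  exact hD.mul_dvd ((dvd_sub (h1.mul_right e') (h1'.mul_right e)).trans (dvd_of_eq (by ring)))
    ((dvd_sub (h2'.mul_left c) (h2.mul_left c')).trans (dvd_of_eq (by ring)))

lemma line_gen {D₁ D₂ : ℕ} {ρ s c e : ℤ} (h0 : c ≠ 0 ∨ e ≠ 0) (h1 : (D₁ : ℤ) ∣ c + ρ * e)
    (h2 : (D₂ : ℤ) ∣ e - s * c) : ∃ c₁ e₁ g : ℤ, c = g * c₁ ∧ e = g * e₁ ∧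
      (D₁ : ℤ) ∣ c₁ + ρ * e₁ ∧ (D₂ : ℤ) ∣ e₁ - s * c₁ ∧
      ∀ c' e' : ℤ, (D₁ : ℤ) ∣ c' + ρ * e' → (D₂ : ℤ) ∣ e' - s * c' → c₁ * e' - c' * e₁ = 0 →
        ∃ x : ℤ, c' = x * c₁ ∧ e' = x * e₁ := by
  obtain ⟨c₀, e₀, hc, e1, e2⟩ := Int.exists_gcd_one (Int.gcd_pos_iff.2 h0)
  generalize ((Int.gcd c e : ℕ) : ℤ) = g at *
  let S : AddSubgroup ℤ :=
    { carrier := {t | (D₁ : ℤ) ∣ t * (c₀ + ρ * e₀) ∧ (D₂ : ℤ) ∣ t * (e₀ - s * c₀)}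
      add_mem' := fun ⟨a1, a2⟩ ⟨b1, b2⟩ => by
        simp only [Set.mem_ofPred_eq, add_mul]
        exact ⟨dvd_add a1 b1, dvd_add a2 b2⟩
      zero_mem' := by simp
      neg_mem' := fun ⟨a1, a2⟩ => by
        simp only [Set.mem_ofPred_eq, neg_mul, dvd_neg]
        exact ⟨a1, a2⟩ }
  obtain ⟨g₀, hd⟩ := Int.subgroup_cyclic S
  have hS : ∀ y, y ∈ S ↔ g₀ ∣ y := fun y => by
    rw [hd, AddSubgroup.mem_closure_singleton]
    exact ⟨fun ⟨n, h⟩ => ⟨n, by rw [← h]; simp [mul_comm]⟩, fun ⟨n, h⟩ => ⟨n, by simp [h, mul_comm]⟩⟩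
  obtain ⟨j, hj⟩ := (hS g).1 ⟨h1.trans (dvd_of_eq (by rw [e1, e2]; ring)),
    h2.trans (dvd_of_eq (by rw [e1, e2]; ring))⟩
  obtain ⟨a1, a2⟩ := (hS g₀).2 dvd_rfl
  have g0 : g₀ ≠ 0 := by
    rintro rfl
    rw [e1, e2, hj] at h0
    simp at h0
  refine ⟨g₀ * c₀, g₀ * e₀, j, by rw [e1, hj]; ring, by rw [e2, hj]; ring,
    a1.trans (dvd_of_eq (by ring)), a2.trans (dvd_of_eq (by ring)), fun c' e' b1 b2 b3 => ?_⟩
  obtain ⟨p, q, hpq⟩ := Int.isCoprime_iff_gcd_eq_one.2 hc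
  have b4 : c₀ * e' - c' * e₀ = 0 := mul_left_cancel₀ g0 (by linear_combination b3)
  have f1 : c' = (p * c' + q * e') * c₀ := by linear_combination (-c') * hpq - q * b4
  have f2 : e' = (p * c' + q * e') * e₀ := by linear_combination (-e') * hpq + p * b4
  generalize p * c' + q * e' = t at f1 f2
  obtain ⟨x, hx⟩ := (hS t).1 ⟨b1.trans (dvd_of_eq (by rw [f1, f2]; ring)),
    b2.trans (dvd_of_eq (by rw [f1, f2]; ring))⟩
  exact ⟨x, by rw [f1, hx]; ring, by rw [f2, hx]; ring⟩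

theorem basis {w w₁ w₂ : ℝ} (hw : 1 ≤ w) (h1 : 0 < w₁) (h2 : 0 < w₂)
    {D₁ D₂ : ℕ} (d1 : 0 < D₁) (d2 : 0 < D₂) (hD : IsCoprime (D₁ : ℤ) D₂) (ρ s : ℤ) {W : ℝ}
    (hW : W * (w * (D₁ * D₂)) = w₁ * w₂) (h : 16 ≤ W) :
    ∃ c₁ e₁ c₂ e₂ g : ℤ, ∃ X Y : ℝ, 1 ≤ X ∧ 1 ≤ Y ∧ X * Y ≤ 9 * W ∧ g ∣ D₁ ∧
      c₁ * e₂ - c₂ * e₁ = D₁ * D₂ * g ∧ ((D₁ : ℤ) ∣ c₁ + ρ * e₁ ∧ (D₂ : ℤ) ∣ e₁ - s * c₁) ∧
      ((D₁ : ℤ) ∣ c₂ + ρ * e₂ ∧ (D₂ : ℤ) ∣ e₂ - s * c₂) ∧ |c₁ + e₁ * w| ≤ w₁ ∧ |c₁ - e₁ * w| ≤ w₂ ∧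
      ∀ c e : ℤ, (D₁ : ℤ) ∣ c + ρ * e → (D₂ : ℤ) ∣ e - s * c → |c + e * w| ≤ w₁ → |c - e * w| ≤ w₂ →
        ∃ x y : ℤ, c = x * c₁ + y * c₂ ∧ e = x * e₁ + y * e₂ ∧
          (y = 0 ∨ |(x : ℝ)| ≤ X ∧ |(y : ℝ)| ≤ Y) := by
  have W0 : 0 < W := by linarith
  have w0 : 0 < w := by linarith
  have D0 : (0 : ℝ) < D₁ * D₂ := by positivity
  obtain ⟨t, ht, t2⟩ : ∃ t : ℝ, 0 < t ∧ t ^ 2 * W = 16 :=
    ⟨√(16 / W), by positivity, by rw [Real.sq_sqrt (by positivity)]; field_simp⟩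
  have t1 : t ≤ 1 := by nlinarith
  obtain ⟨c, e, h0, l1, l2, b1, b2⟩ := skew_box (s₁ := t * w₁) (s₂ := t * w₂) hw (by positivity)
    (by positivity) d1 d2 ρ s (le_of_eq (by linear_combination (-w * (D₁ * D₂)) * t2 + t ^ 2 * hW))
  obtain ⟨c₁, e₁, g, rfl, rfl, l3, l4, hx⟩ := line_gen h0 l1 l2
  have g0 : g ≠ 0 := by rintro rfl; simp at h0
  have g1 : (1 : ℝ) ≤ |(g : ℝ)| := by exact_mod_cast Int.one_le_abs g0
  have h0' : c₁ ≠ 0 ∨ e₁ ≠ 0 := h0.imp right_ne_zero_of_mul right_ne_zero_of_mul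
  have b3 : |c₁ + e₁ * w| ≤ t * w₁ := by
    refine (le_mul_of_one_le_left (abs_nonneg _) g1).trans (le_of_eq_of_le ?_ b1)
    rw [← abs_mul]; push_cast; congr 1; ring
  have b4 : |c₁ - e₁ * w| ≤ t * w₂ := by
    refine (le_mul_of_one_le_left (abs_nonneg _) g1).trans (le_of_eq_of_le ?_ b2)
    rw [← abs_mul]; push_cast; congr 1; ring
  obtain ⟨ν, f₁, f₂, ν0, νt, n1, n2, f1, f2⟩ : ∃ ν f₁ f₂ : ℝ, 0 < ν ∧ ν ≤ t ∧ |c₁ + e₁ * w| ≤ ν * w₁ ∧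
      |c₁ - e₁ * w| ≤ ν * w₂ ∧ f₁ * c₁ + f₂ * e₁ = 1 ∧
      ∀ c e : ℤ, |c + e * w| ≤ w₁ → |c - e * w| ≤ w₂ → |f₁ * c + f₂ * e| ≤ 1 / ν := by
    have z : ¬ ((c₁ : ℝ) + e₁ * w = 0 ∧ (c₁ : ℝ) - e₁ * w = 0) := fun ⟨a1, a2⟩ => by
      have a3 : (c₁ : ℝ) = 0 := by linarith
      have a4 : (e₁ : ℝ) = 0 := (mul_eq_zero.1 (by linarith : e₁ * w = 0)).resolve_right w0.ne'
      rcases h0' with h | h
      exacts [h (by exact_mod_cast a3), h (by exact_mod_cast a4)]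
    rcases le_total (|c₁ + e₁ * w| / w₁) (|c₁ - e₁ * w| / w₂) with hc | hc
    · have z1 : (c₁ : ℝ) - e₁ * w ≠ 0 := fun a => by
        rw [a, abs_zero, zero_div, div_le_iff₀ h1, zero_mul, abs_nonpos_iff] at hc
        exact z ⟨hc, a⟩
      have z2 := abs_pos.2 z1
      refine ⟨|c₁ - e₁ * w| / w₂, 1 / (c₁ - e₁ * w), -w / (c₁ - e₁ * w), by positivity,
        (div_le_iff₀ h2).2 b4, (div_le_iff₀ h1).1 hc, by rw [div_mul_cancel₀ _ h2.ne'],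
        by field_simp; ring, fun c e _ a => ?_⟩
      rw [show 1 / (c₁ - e₁ * w) * c + -w / (c₁ - e₁ * w) * e = (c - e * w) / (c₁ - e₁ * w) by ring,
        abs_div, one_div_div]
      rw [div_le_div_iff_of_pos_right z2]; exact a
    · have z1 : (c₁ : ℝ) + e₁ * w ≠ 0 := fun a => by
        rw [a, abs_zero, zero_div, div_le_iff₀ h2, zero_mul, abs_nonpos_iff] at hc
        exact z ⟨a, hc⟩
      have z2 := abs_pos.2 z1
      refine ⟨|c₁ + e₁ * w| / w₁, 1 / (c₁ + e₁ * w), w / (c₁ + e₁ * w), by positivity,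
        (div_le_iff₀ h1).2 b3, by rw [div_mul_cancel₀ _ h1.ne'], (div_le_iff₀ h2).1 hc,
        by field_simp, fun c e a _ => ?_⟩
      rw [show 1 / (c₁ + e₁ * w) * c + w / (c₁ + e₁ * w) * e = (c + e * w) / (c₁ + e₁ * w) by ring,
        abs_div, one_div_div]
      rw [div_le_div_iff_of_pos_right z2]; exact a
  have D0' : ((D₁ : ℤ) * D₂) ≠ 0 := by positivity
  let S : AddSubgroup ℤ :=
    { carrier := {y | ∃ c e : ℤ, (D₁ : ℤ) ∣ c + ρ * e ∧ (D₂ : ℤ) ∣ e - s * c ∧ c₁ * e - c * e₁ = D₁ * D₂ * y}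
      add_mem' := fun ⟨c, e, a1, a2, a3⟩ ⟨c', e', b1, b2, b3⟩ =>
        ⟨c + c', e + e', (dvd_add a1 b1).trans (dvd_of_eq (by ring)),
          (dvd_add a2 b2).trans (dvd_of_eq (by ring)), by linear_combination a3 + b3⟩
      zero_mem' := ⟨0, 0, by simp, by simp, by simp⟩
      neg_mem' := fun ⟨c, e, a1, a2, a3⟩ => ⟨-c, -e, (dvd_neg.2 a1).trans (dvd_of_eq (by ring)),
        (dvd_neg.2 a2).trans (dvd_of_eq (by ring)), by linear_combination -a3⟩ }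
  obtain ⟨g₀, hd⟩ := Int.subgroup_cyclic S
  have hS : ∀ y, y ∈ S ↔ g₀ ∣ y := fun y => by
    rw [hd, AddSubgroup.mem_closure_singleton]
    exact ⟨fun ⟨n, h⟩ => ⟨n, by rw [← h]; simp [mul_comm]⟩, fun ⟨n, h⟩ => ⟨n, by simp [h, mul_comm]⟩⟩
  obtain ⟨c', e', a1, a2, a3⟩ := (hS g₀).2 dvd_rfl
  obtain ⟨c₂, e₂, a1, a2, a3, a4⟩ : ∃ c₂ e₂ : ℤ, (D₁ : ℤ) ∣ c₂ + ρ * e₂ ∧ (D₂ : ℤ) ∣ e₂ - s * c₂ ∧
      c₁ * e₂ - c₂ * e₁ = D₁ * D₂ * g₀ ∧ |f₁ * c₂ + f₂ * e₂| ≤ 1 / 2 := by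
    refine ⟨c' - round (f₁ * c' + f₂ * e') * c₁, e' - round (f₁ * c' + f₂ * e') * e₁,
      (dvd_sub a1 (l3.mul_left (round (f₁ * c' + f₂ * e')))).trans (dvd_of_eq (by ring)),
      (dvd_sub a2 (l4.mul_left (round (f₁ * c' + f₂ * e')))).trans (dvd_of_eq (by ring)), by linear_combination a3,
      le_of_eq_of_le ?_ (abs_sub_round (f₁ * c' + f₂ * e'))⟩
    push_cast; congr 1
    linear_combination (-(round (f₁ * c' + f₂ * e') : ℝ)) * f1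
  have span : ∀ c e : ℤ, (D₁ : ℤ) ∣ c + ρ * e → (D₂ : ℤ) ∣ e - s * c →
      ∃ x y : ℤ, c = x * c₁ + y * c₂ ∧ e = x * e₁ + y * e₂ := fun c e b1 b2 => by
    obtain ⟨y', hy'⟩ := det_dvd hD l3 l4 b1 b2
    obtain ⟨y, rfl⟩ := (hS y').1 ⟨c, e, b1, b2, by exact_mod_cast hy'⟩
    push_cast at hy'
    obtain ⟨x, x1, x2⟩ := hx (c - y * c₂) (e - y * e₂)
      ((dvd_sub b1 (a1.mul_left y)).trans (dvd_of_eq (by ring)))
      ((dvd_sub b2 (a2.mul_left y)).trans (dvd_of_eq (by ring))) (by linear_combination hy' - y * a3)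
    exact ⟨x, y, by linarith, by linarith⟩
  have gD : g₀ ∣ D₁ := by
    obtain ⟨x, y, x1, x2⟩ := span D₁ (D₁ * s) ⟨1 + ρ * s, by ring⟩ (by simp [mul_comm])
    obtain ⟨x', y', x3, x4⟩ := span 0 (D₁ * D₂) ⟨ρ * D₂, by ring⟩ ⟨D₁, by ring⟩
    refine ⟨x * y' - x' * y, mul_left_cancel₀ D0' ?_⟩
    linear_combination (x * y' - x' * y) * a3 + (D₁ * D₂) * x1 + (x * c₁ + y * c₂) * x4 -
      (x * e₁ + y * e₂) * x3
  have g2 : (1 : ℝ) ≤ |(g₀ : ℝ)| := by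
    exact_mod_cast Int.one_le_abs (ne_zero_of_dvd_ne_zero (by positivity) gD)
  have key : ∀ c e x y : ℤ, |c + e * w| ≤ w₁ → |c - e * w| ≤ w₂ → c = x * c₁ + y * c₂ →
      e = x * e₁ + y * e₂ → |(x : ℝ)| ≤ 9 / ν ∧ |(y : ℝ)| ≤ ν * W := fun c e x y b5 b6 x1 x2 => by
    have y1 : |(y : ℝ)| ≤ ν * W := by
      have k1 : 2 * w * (D₁ * D₂) * (g₀ * y) =
          (c₁ - e₁ * w) * (c + e * w) - (c₁ + e₁ * w) * (c - e * w) := by
        have : ((c₁ * e - c * e₁ : ℤ) : ℝ) = (D₁ * D₂ * g₀ * y : ℤ) := by rw [← a3, x1, x2]; congr 1; ring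
        push_cast at this
        linear_combination (-2 * w) * this
      have k2 : |2 * w * (D₁ * D₂) * (g₀ * y)| ≤ ν * w₂ * w₁ + ν * w₁ * w₂ := by
        rw [k1]
        refine (abs_sub _ _).trans ?_
        rw [abs_mul, abs_mul]
        gcongr
      rw [abs_mul, abs_of_pos (by positivity), abs_mul] at k2
      have k3 := mul_le_mul_of_nonneg_left (le_mul_of_one_le_left (abs_nonneg (y : ℝ)) g2)
        (show 0 ≤ 2 * w * (D₁ * D₂) by positivity)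
      refine le_of_mul_le_mul_left (a := 2 * w * (D₁ * D₂)) ?_ (by positivity)
      linear_combination k2 + k3 - 2 * ν * hW
    refine ⟨?_, y1⟩
    have k4 : (x : ℝ) = f₁ * c + f₂ * e - y * (f₁ * c₂ + f₂ * e₂) := by
      rw [x1, x2]; push_cast; linear_combination (-x) * f1
    have k5 : ν * W ≤ 16 / ν := by
      rw [le_div_iff₀ ν0, ← t2, mul_right_comm, ← pow_two]; gcongr
    rw [k4]
    refine (abs_sub _ _).trans ?_
    rw [abs_mul, show 9 / ν = 1 / ν + 16 / ν * (1 / 2) by ring]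
    exact add_le_add (f2 c e b5 b6) (mul_le_mul (y1.trans k5) a4 (abs_nonneg _) (by positivity))
  have b5 := b3.trans (mul_le_of_le_one_left h1.le t1)
  have b6 := b4.trans (mul_le_of_le_one_left h2.le t1)
  rcases le_or_gt 1 (ν * W) with hν | hν
  · refine ⟨c₁, e₁, c₂, e₂, g₀, 9 / ν, ν * W, by rw [le_div_iff₀ ν0]; linarith, hν,
      le_of_eq (by field_simp), gD, a3, ⟨l3, l4⟩, ⟨a1, a2⟩, b5, b6, fun c e p1 p2 p3 p4 => ?_⟩
    obtain ⟨x, y, x1, x2⟩ := span c e p1 p2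
    exact ⟨x, y, x1, x2, Or.inr (key c e x y p3 p4 x1 x2)⟩
  · refine ⟨c₁, e₁, c₂, e₂, g₀, 1, 1, le_rfl, le_rfl, by linarith, gD, a3, ⟨l3, l4⟩, ⟨a1, a2⟩, b5, b6,
      fun c e p1 p2 p3 p4 => ?_⟩
    obtain ⟨x, y, x1, x2⟩ := span c e p1 p2
    exact ⟨x, y, x1, x2, Or.inl (Int.abs_lt_one_iff.1 (by
      exact_mod_cast (key c e x y p3 p4 x1 x2).2.trans_lt hν))⟩

/-- dyadic parallelograms -/
lemma region {m : ℕ} {σ : ℤ} (hσ : σ = 1 ∨ σ = -1) {B Δ : ℝ} (hΔ : 0 < Δ) (hB : 1 ≤ B) {I : ℕ}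
    (hI : B ^ 2 < 2 ^ I) : ∃ W : ℕ → ℝ, (∀ i, 0 < W i) ∧ (σ = -1 → ∀ i, 2 * Δ / W i = W i) ∧
      (∀ i t, ∀ c e : ℤ, |c + e * √(m : ℝ)| ≤ t * W i → |c - e * √(m : ℝ)| ≤ t * (2 * Δ / W i) →
        |((c ^ 2 - σ * m * e ^ 2 : ℤ) : ℝ)| ≤ t ^ 2 * (2 * Δ)) ∧
      ∀ c e : ℤ, Δ ≤ 2 * |((c ^ 2 - σ * m * e ^ 2 : ℤ) : ℝ)| → |((c ^ 2 - σ * m * e ^ 2 : ℤ) : ℝ)| ≤ Δ →
        |c + e * √(m : ℝ)| ≤ B → |c - e * √(m : ℝ)| ≤ B →
        ∃ i < I, |c + e * √(m : ℝ)| ≤ W i ∧ |c - e * √(m : ℝ)| ≤ 2 * Δ / W i ∧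
          W i ≤ 4 * B ∧ 2 * Δ / W i ≤ 4 * B := by
  have w2 : √(m : ℝ) ^ 2 = m := Real.sq_sqrt (Nat.cast_nonneg m)
  generalize √(m : ℝ) = w at *
  have B0 : 0 < B := by linarith
  rcases hσ with rfl | rfl
  · have k : ∀ c e : ℤ, |((c ^ 2 - 1 * m * e ^ 2 : ℤ) : ℝ)| = |c + e * w| * |c - e * w| := fun c e => by
      rw [← abs_mul]; push_cast; congr 1; rw [← w2]; ring
    refine ⟨fun i => 2 * 2 ^ i / B, fun i => by positivity, by simp, fun i t c e a1 a2 => ?_,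
      fun c e a0 a1 a2 a3 => ?_⟩
    · rw [k]
      refine (mul_le_mul a1 a2 (abs_nonneg _) ((abs_nonneg _).trans a1)).trans (le_of_eq ?_)
      field_simp
    · have a4 : (1 : ℝ) ≤ |((c ^ 2 - 1 * m * e ^ 2 : ℤ) : ℝ)| := by
        have : c ^ 2 - 1 * m * e ^ 2 ≠ 0 := fun h => by rw [h] at a0; simp at a0; linarith
        exact_mod_cast Int.one_le_abs this
      rw [k] at a0 a1 a4
      have x0 := abs_nonneg (c + e * w)
      have y0 := abs_nonneg (c - e * w)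
      generalize |c + e * w| = x at *
      generalize |c - e * w| = y at *
      have a5 : 1 ≤ B * x := by nlinarith
      have a6 : (2 : ℝ) ^ Nat.log 2 ⌊B * x⌋₊ ≤ B * x := by
        refine le_trans ?_ (Nat.floor_le (by linarith))
        exact_mod_cast Nat.pow_log_le_self 2 (Nat.floor_pos.2 a5).ne'
      have a7 : B * x < 2 * 2 ^ Nat.log 2 ⌊B * x⌋₊ := by
        refine (Nat.lt_floor_add_one _).trans_le ?_
        have := Nat.lt_pow_succ_log_self (b := 2) (by norm_num) ⌊B * x⌋₊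
        rw [Nat.succ_eq_add_one, pow_succ'] at this
        exact_mod_cast this
      refine ⟨_, (pow_lt_pow_iff_right₀ one_lt_two).1 (a6.trans_lt (by nlinarith)), ?_, ?_, ?_, ?_⟩
      · rw [le_div_iff₀ B0]; linarith
      · rw [le_div_iff₀ (by positivity), ← mul_div_assoc, div_le_iff₀ B0]
        nlinarith [mul_le_mul_of_nonneg_left a6 y0]
      · rw [div_le_iff₀ B0]; nlinarith
      · rw [div_le_iff₀ (by positivity), ← mul_div_assoc, le_div_iff₀ B0]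
        nlinarith [mul_le_mul_of_nonneg_left a3 x0, mul_le_mul_of_nonneg_left a7.le B0.le]
  · have k : ∀ c e : ℤ, 2 * |((c ^ 2 - -1 * m * e ^ 2 : ℤ) : ℝ)| =
        |c + e * w| ^ 2 + |c - e * w| ^ 2 := fun c e => by
      rw [sq_abs, sq_abs, abs_of_nonneg (by push_cast; rw [neg_mul, neg_mul, sub_neg_eq_add]; positivity)]
      push_cast; rw [← w2]; ring
    have s2 : √(2 * Δ) ^ 2 = 2 * Δ := Real.sq_sqrt (by positivity)
    have s0 : 0 < √(2 * Δ) := Real.sqrt_pos.2 (by positivity)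
    have s3 : 2 * Δ / √(2 * Δ) = √(2 * Δ) := by rw [div_eq_iff s0.ne', ← pow_two, s2]
    refine ⟨fun _ => √(2 * Δ), fun _ => s0, fun _ _ => s3, fun i t c e a1 a2 => ?_,
      fun c e a0 a1 a2 a3 => ?_⟩
    · rw [s3] at a2
      have := k c e
      have p1 := pow_le_pow_left₀ (abs_nonneg _) a1 2
      have p2 := pow_le_pow_left₀ (abs_nonneg _) a2 2
      rw [mul_pow, s2] at p1 p2
      linarith
    · have := k c e
      simp only [s3]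
      have p1 := pow_le_pow_left₀ (abs_nonneg _) a2 2
      have p2 := pow_le_pow_left₀ (abs_nonneg _) a3 2
      have p3 : √(2 * Δ) ≤ 4 * B := le_of_sq_le_sq (by nlinarith) (by positivity)
      refine ⟨0, Nat.pos_of_ne_zero ?_, le_of_sq_le_sq ?_ s0.le, le_of_sq_le_sq ?_ s0.le, p3, p3⟩
      · rintro rfl
        nlinarith
      · nlinarith [sq_nonneg |c - e * w|]
      · nlinarith [sq_nonneg |c + e * w|]

end Pool.Agent.MP_d0fd9b_nt.H72
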