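import Pool.Agent.MP_d0fd9b_nt.H72.Cover

/-! Points at which the value of a binary form divides a fixed integer. -/

set_option autoImplicit false

namespace Pool.Agent.MP_d0fd9b_nt.H72

open Finset Polynomial NumberField

/-- (proof copied from the file `MP_e4c747_an/Exp`) -/
theorem divisor_bound (s : ℕ) : ∃ C : ℕ, 1 ≤ C ∧ ∀ n : ℕ, n ≠ 0 → #n.divisors ^ s ≤ C * n := by
  refine ⟨(s.factorial * 2 ^ s) ^ 2 ^ s, Nat.one_le_iff_ne_zero.2 (by positivity), fun n hn => ?_⟩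
  have h1 : ∀ p ∈ n.primeFactors, (n.factorization p + 1) ^ s ≤
      (if p < 2 ^ s then s.factorial * 2 ^ s else 1) * p ^ n.factorization p := by
    intro p hp
    have hp2 := (Nat.prime_of_mem_primeFactors hp).two_le
    generalize n.factorization p = a
    split_ifs with h
    · calc (a + 1) ^ s ≤ (a + 1).ascFactorial s := Nat.pow_succ_le_ascFactorial _ _
        _ = s.factorial * (a + s).choose s := Nat.ascFactorial_eq_factorial_mul_choose _ _
        _ ≤ s.factorial * 2 ^ (a + s) := Nat.mul_le_mul_left _ (Nat.choose_le_two_pow _ _)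
        _ = s.factorial * 2 ^ s * 2 ^ a := by ring
        _ ≤ _ := Nat.mul_le_mul_left _ (Nat.pow_le_pow_left hp2 _)
    · calc (a + 1) ^ s ≤ (2 ^ a) ^ s := Nat.pow_le_pow_left Nat.lt_two_pow_self _
        _ = (2 ^ s) ^ a := by rw [← pow_mul, ← pow_mul, mul_comm]
        _ ≤ _ := by rw [one_mul]; exact Nat.pow_le_pow_left (not_lt.1 h) _
  have h2 : ∏ p ∈ n.primeFactors, p ^ n.factorization p = n :=
    Nat.prod_factorization_pow_eq_self hn
  rw [Nat.card_divisors hn, ← prod_pow]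
  refine (prod_le_prod' h1).trans ?_
  rw [prod_mul_distrib, h2]
  refine Nat.mul_le_mul_right _ ?_
  rw [prod_ite, prod_const, prod_const_one, mul_one]
  refine Nat.pow_le_pow_right (by positivity) ?_
  calc _ ≤ #(range (2 ^ s)) := card_le_card fun p hp => mem_range.2 (mem_filter.1 hp).2
    _ = _ := card_range _

theorem tau_le {ε : ℝ} (hε : 0 < ε) :
    ∃ C : ℝ, 1 ≤ C ∧ ∀ n : ℕ, n ≠ 0 → ∀ x : ℝ, n ≤ x → (#n.divisors : ℝ) ≤ C * x ^ ε := by
  obtain ⟨s, hs⟩ := exists_nat_one_div_lt hε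
  obtain ⟨C, C1, hC⟩ := divisor_bound (s + 1)
  have C1' : (1 : ℝ) ≤ C := by exact_mod_cast C1
  refine ⟨C, C1', fun n hn x hx => ?_⟩
  have n1 : (1 : ℝ) ≤ n := by exact_mod_cast Nat.pos_of_ne_zero hn
  have x1 : 1 ≤ x := n1.trans hx
  refine le_of_pow_le_pow_left₀ (Nat.succ_ne_zero s) (by positivity) ?_
  have h1 : (#n.divisors : ℝ) ^ (s + 1) ≤ C * n := by exact_mod_cast hC n hn
  refine h1.trans ?_
  rw [mul_pow, ← Real.rpow_natCast (x ^ ε), ← Real.rpow_mul (by linarith)]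
  refine mul_le_mul (le_self_pow₀ C1' (Nat.succ_ne_zero s)) (hx.trans ?_) (by positivity) (by positivity)
  refine Real.self_le_rpow_of_one_le x1 ?_
  rw [div_lt_iff₀ (by positivity)] at hs
  push_cast
  exact hs.le

lemma log_le {ε : ℝ} (hε : 0 < ε) :
    ∃ C : ℝ, 1 ≤ C ∧ ∀ x : ℝ, 1 ≤ x → ∃ I : ℕ, x < 2 ^ I ∧ I ≤ C * x ^ ε := by
  obtain ⟨C, C1, hC⟩ := tau_le hε
  refine ⟨C, C1, fun x hx => ⟨Nat.log 2 ⌊x⌋₊ + 1, (Nat.lt_floor_add_one x).trans_le ?_, ?_⟩⟩
  · exact_mod_cast Nat.lt_pow_succ_log_self one_lt_two ⌊x⌋₊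
  · have := hC (2 ^ Nat.log 2 ⌊x⌋₊) (by positivity) x (le_trans (by
      exact_mod_cast Nat.pow_log_le_self 2 (Nat.floor_pos.2 hx).ne') (Nat.floor_le (by linarith)))
    rwa [Nat.divisors_prime_pow Nat.prime_two, card_map, card_range] at this

lemma ideal_divisors (K : Type) [Field K] [NumberField K] {n : ℕ} (hn : n ≠ 0) :
    ∃ T : Finset (Ideal (𝓞 K)), #T ≤ #n.divisors ^ Module.finrank ℚ K ∧
      ∀ I, I ∣ Ideal.span {(n : 𝓞 K)} → I ∈ T := by
  classical
  have mul : ∀ (T T' : Finset (Ideal (𝓞 K))) (J J' : Ideal (𝓞 K)), (∀ I, I ∣ J → I ∈ T) →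
      (∀ I, I ∣ J' → I ∈ T') → ∀ I, I ∣ J * J' → I ∈ image₂ (· * ·) T T' := fun T T' J J' h h' I hI => by
    obtain ⟨A, B, hA, hB, rfl⟩ := exists_dvd_and_dvd_of_dvd_mul hI
    exact mem_image₂_of_mem (h A hA) (h' B hB)
  have pw : ∀ (a : ℕ) (s : Multiset (Ideal (𝓞 K))), (∀ P ∈ s, Prime P) →
      ∃ T : Finset (Ideal (𝓞 K)), #T ≤ (a + 1) ^ s.card ∧ ∀ I, I ∣ s.prod ^ a → I ∈ T := fun a s => by
    induction s using Multiset.induction_on with
    | empty => exact fun _ => ⟨{1}, by simp, fun I hI => by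
        rw [Multiset.prod_zero, one_pow] at hI
        simpa using Ideal.isUnit_iff.1 (isUnit_of_dvd_one hI)⟩
    | cons P s ih =>
      intro h
      obtain ⟨T, h1, h2⟩ := ih fun Q hQ => h Q (Multiset.mem_cons_of_mem hQ)
      refine ⟨_, ?_, fun I hI => mul ((range (a + 1)).image (P ^ ·)) T (P ^ a) _ (fun I hI => ?_) h2 I
        (by rwa [Multiset.prod_cons, mul_pow] at hI)⟩
      · rw [Multiset.card_cons, pow_succ']
        exact (card_image₂_le _ _ _).trans (Nat.mul_le_mul (card_image_le.trans (card_range _).le) h1)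
      · obtain ⟨i, hi, h3⟩ := (dvd_prime_pow (h P (Multiset.mem_cons_self _ _)) a).1 hI
        exact mem_image.2 ⟨i, mem_range.2 (by omega), (associated_iff_eq.1 h3).symm⟩
  induction n using Nat.recOnPrimeCoprime with
  | zero => exact absurd rfl hn
  | prime_pow p a hp =>
    have h0 : Ideal.span {(p : 𝓞 K)} ≠ 0 := by simpa using hp.ne_zero
    obtain ⟨s, h1, h2⟩ := UniqueFactorizationMonoid.exists_prime_factors _ h0
    rw [associated_iff_eq] at h2
    obtain ⟨T, h3, h4⟩ := pw a s h1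
    refine ⟨T, h3.trans ?_, fun I hI => h4 I (by rwa [h2, Ideal.span_singleton_pow, ← Nat.cast_pow])⟩
    rw [Nat.divisors_prime_pow hp, card_map, card_range]
    refine Nat.pow_le_pow_right a.succ_pos ((Nat.pow_le_pow_iff_right hp.one_lt).1 ?_)
    have h5 : Ideal.absNorm s.prod = p ^ Module.finrank ℚ K := by
      rw [h2, Ideal.absNorm_span_natCast, RingOfIntegers.rank]
    rw [← h5, map_multiset_prod, ← Multiset.card_map Ideal.absNorm]
    refine Multiset.pow_card_le_prod fun x hx => ?_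
    obtain ⟨P, hP, rfl⟩ := Multiset.mem_map.1 hx
    obtain ⟨i, -, hi⟩ := (Nat.dvd_prime_pow hp).1 (h5 ▸ map_dvd Ideal.absNorm (Multiset.dvd_prod hP))
    rw [hi]
    refine Nat.le_self_pow (fun h => (h1 P hP).ne_one ?_) p
    rwa [h, pow_zero, Ideal.absNorm_eq_one_iff, ← Ideal.one_eq_top] at hi
  | coprime a b ha hb hab iha ihb =>
    obtain ⟨T, h1, h2⟩ := iha (by omega)
    obtain ⟨T', h3, h4⟩ := ihb (by omega)
    refine ⟨_, ?_, fun I hI => mul T T' _ _ h2 h4 I (by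
      rwa [Nat.cast_mul, ← Ideal.span_singleton_mul_span_singleton] at hI)⟩
    rw [hab.card_divisors_mul, mul_pow]
    exact (card_image₂_le _ _ _).trans (Nat.mul_le_mul h1 h3)

lemma one_le_prod {K : Type} [Field K] [NumberField K] {a : 𝓞 K} (ha : a ≠ 0) :
    1 ≤ ∏ σ : K →ₐ[ℚ] ℂ, ‖σ a‖ := by
  rw [← norm_prod, ← Algebra.norm_eq_prod_embeddings, ← Algebra.coe_norm_int, map_intCast,
    Complex.norm_intCast]
  exact_mod_cast Int.one_le_abs (Algebra.norm_ne_zero_iff.2 ha)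

lemma exists_label {A : ℝ} (hA : 0 < A) {I : ℕ} (hI : A ^ 2 < 2 ^ I) : ∃ lab : ℂ → ℕ × ℕ × ℕ,
    ∀ z, 1 ≤ A * ‖z‖ → ‖z‖ ≤ A → lab z ∈ range I ×ˢ range 9 ×ˢ range 9 ∧
      ∀ z', 1 ≤ A * ‖z'‖ → lab z = lab z' → ‖z' - z‖ < ‖z‖ := by
  let i : ℂ → ℕ := fun z => Nat.log 2 ⌊A * ‖z‖⌋₊
  have hi : ∀ z, 1 ≤ A * ‖z‖ → 2 ^ i z / A ≤ ‖z‖ ∧ ‖z‖ ≤ 2 * (2 ^ i z / A) := fun z hz => by
    rw [div_le_iff₀' hA, ← mul_div_assoc, le_div_iff₀' hA, ← pow_succ']
    exact ⟨le_trans (by exact_mod_cast Nat.pow_log_le_self 2 (Nat.floor_pos.2 hz).ne')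
      (Nat.floor_le (by linarith)), (Nat.lt_floor_add_one _).le.trans
      (by exact_mod_cast Nat.lt_pow_succ_log_self one_lt_two _)⟩
  refine ⟨fun z => (i z, ⌊(z.re + 2 * (2 ^ i z / A)) / (2 ^ i z / A / 2)⌋₊,
    ⌊(z.im + 2 * (2 ^ i z / A)) / (2 ^ i z / A / 2)⌋₊), fun z h1 h2 => ?_⟩
  obtain ⟨a1, a2⟩ := hi z h1
  have s0 : (0 : ℝ) < 2 ^ i z / A / 2 := by positivity
  have r1 := abs_le.1 ((Complex.abs_re_le_norm z).trans a2)
  have r2 := abs_le.1 ((Complex.abs_im_le_norm z).trans a2)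
  refine ⟨?_, fun z' h3 he => ?_⟩
  · simp only [mem_product, mem_range]
    rw [div_le_iff₀ hA] at a1
    refine ⟨(pow_lt_pow_iff_right₀ one_lt_two).1 (a1.trans_lt (by nlinarith)), ?_, ?_⟩ <;>
      rw [Nat.floor_lt' (by norm_num), div_lt_iff₀ s0] <;> push_cast <;> linarith
  · simp only [Prod.mk.injEq] at he
    obtain ⟨e1, e2, e3⟩ := he
    obtain ⟨-, a3⟩ := hi z' h3
    rw [← e1] at e2 e3 a3
    have r3 := abs_le.1 ((Complex.abs_re_le_norm z').trans a3)
    have r4 := abs_le.1 ((Complex.abs_im_le_norm z').trans a3)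
    have f1 := floor_close s0 (by linarith) (by linarith) e2.symm
    have f2 := floor_close s0 (by linarith) (by linarith) e3.symm
    rw [add_sub_add_right_eq_sub] at f1 f2
    refine (Complex.norm_le_abs_re_add_abs_im _).trans_lt ?_
    rw [Complex.sub_re, Complex.sub_im]
    linarith

/-- the binary form of degree `r` attached to a polynomial -/
def hom {A : Type} [CommRing A] (r : ℕ) (H : ℤ[X]) (x y : A) : A :=
  ∑ i ∈ range (r + 1), (H.coeff i : A) * x ^ i * y ^ (r - i)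

theorem forms_count (R : ℕ) {ε : ℝ} (hε : 0 < ε) : ∃ C : ℝ, 0 ≤ C ∧ ∀ B : ℝ, 3 ≤ B → ∀ H : ℤ[X],
    1 ≤ H.natDegree → H.natDegree ≤ R → (∀ i, |(H.coeff i : ℝ)| ≤ B) → ∀ Θ : ℤ, Θ ≠ 0 → |(Θ : ℝ)| ≤ B →
    ∀ S : Finset (ℤ × ℤ), (∀ x ∈ S, |(x.1 : ℝ)| ≤ B ∧ |(x.2 : ℝ)| ≤ B ∧ hom H.natDegree H x.1 x.2 ∣ Θ ∧
      ∀ y ∈ S, hom H.natDegree H (x.1 - y.1) (x.2 - y.2) = 0 → x = y) → (#S : ℝ) ≤ C * B ^ ε := by
  classical
  obtain ⟨C₁, c1, h1⟩ := tau_le (ε := ε / (2 * (R + 1) * (8 * R + 8) : ℕ)) (by positivity)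
  obtain ⟨C₂, c2, h2⟩ := log_le (ε := ε / (2 * (R + 1) * (8 * R + 8) : ℕ)) (by positivity)
  refine ⟨(C₁ * (C₂ * 81)) ^ (R + 1), by positivity, fun B B3 H d1 dR cH Θ Θ0 hΘ S hS => ?_⟩
  have B1 : 1 ≤ B := by linarith
  have H0 : H ≠ 0 := by rintro rfl; simp at d1
  have a0 : H.leadingCoeff ≠ 0 := leadingCoeff_ne_zero.2 H0
  obtain ⟨θ, hθ⟩ := IsAlgClosed.exists_aeval_eq_zero ℂ H (by
    rw [degree_eq_natDegree H0]; exact_mod_cast (by omega)) 
  have hθ' : aeval θ (H.map (algebraMap ℤ ℚ)) = 0 := by rwa [aeval_map_algebraMap]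
  have H0' : H.map (algebraMap ℤ ℚ) ≠ 0 := (Polynomial.map_ne_zero_iff (RingHom.injective_int _)).2 H0
  have hint : IsIntegral ℚ θ := IsAlgebraic.isIntegral ⟨_, H0', hθ'⟩
  let K := IntermediateField.adjoin ℚ {θ}
  have hfin : FiniteDimensional ℚ K := IntermediateField.adjoin.finiteDimensional hint
  have hnf : NumberField K := {}
  have hK : Module.finrank ℚ K ≤ R := by
    rw [IntermediateField.adjoin.finrank hint]
    exact (natDegree_le_of_dvd (minpoly.dvd ℚ θ hθ') H0').trans (natDegree_map_le.trans dR)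
  obtain ⟨t, ht⟩ : ∃ t : K, aeval t H = 0 := ⟨⟨θ, IntermediateField.mem_adjoin_simple_self ℚ θ⟩,
    (map_eq_zero_iff _ K.val.toRingHom.injective).1 ((aeval_algHom_apply (K.val.restrictScalars ℤ) _ H).symm.trans hθ)⟩
  clear_value K
  let η : 𝓞 K := ⟨H.leadingCoeff • t, isIntegral_leadingCoeff_smul H t ht⟩
  let β : ℤ → ℤ → 𝓞 K := fun x y => H.leadingCoeff * x - η * y
  have hβ : ∀ x y, β x y ∣ (H.leadingCoeff ^ H.natDegree * hom H.natDegree H x y : ℤ) := fun x y => by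
    have e1 : ∑ i ∈ range (H.natDegree + 1), (H.coeff i * H.leadingCoeff ^ (H.natDegree - i) *
        y ^ (H.natDegree - i) : 𝓞 K) * (η * y) ^ i = 0 := by
      rw [← map_eq_zero_iff _ (RingOfIntegers.coe_injective (K := K)), map_sum,
        ← mul_zero ((H.leadingCoeff * y : K) ^ H.natDegree), ← ht, aeval_eq_sum_range, mul_sum]
      refine sum_congr rfl fun i hi => ?_
      obtain ⟨j, hj⟩ := Nat.exists_eq_add_of_le (Nat.lt_succ_iff.1 (mem_range.1 hi))
      rw [hj, Nat.add_sub_cancel_left]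
      simp only [η, map_mul, map_pow, map_intCast, RingOfIntegers.map_mk, zsmul_eq_mul]
      ring
    rw [← sub_zero (Int.cast _), ← e1, hom, mul_sum, Int.cast_sum, ← sum_sub_distrib]
    refine dvd_sum fun i hi => ?_
    obtain ⟨j, hj⟩ := Nat.exists_eq_add_of_le (Nat.lt_succ_iff.1 (mem_range.1 hi))
    rw [hj, Nat.add_sub_cancel_left]
    refine ((sub_dvd_pow_sub_pow _ _ i).mul_left (H.coeff i * H.leadingCoeff ^ j * y ^ j : 𝓞 K)).trans
      (dvd_of_eq ?_)
    push_cast; ring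
  have n0 : (H.leadingCoeff ^ H.natDegree * Θ).natAbs ≠ 0 := Int.natAbs_ne_zero.2 (by positivity)
  obtain ⟨T, t1, t2⟩ := ideal_divisors K n0
  have hd : ∀ x ∈ S, β x.1 x.2 ∣ ((H.leadingCoeff ^ H.natDegree * Θ).natAbs : 𝓞 K) := fun x hx => by
    rw [← Int.cast_natCast]
    exact (hβ _ _).trans (map_dvd (Int.castRingHom _)
      (Int.dvd_natAbs.2 (mul_dvd_mul_left _ (hS x hx).2.2.1)))
  have β0 : ∀ x ∈ S, β x.1 x.2 ≠ 0 := fun x hx => ne_zero_of_dvd_ne_zero (Nat.cast_ne_zero.2 n0) (hd x hx)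
  have up : ∀ x ∈ S, ∀ σ : K →ₐ[ℚ] ℂ, ‖σ (β x.1 x.2)‖ ≤ B ^ 4 := fun x hx σ => by
    have r1 : ‖σ t‖ ≤ B + 1 := by
      have hr : (H.map (Int.castRingHom ℂ)).IsRoot (σ t) := by
        rw [IsRoot, eval_map, ← algebraMap_int_eq, ← aeval_def,
          show σ t = σ.restrictScalars ℤ t from rfl, aeval_algHom_apply, ht, map_zero]
      have := hr.norm_lt_cauchyBound ((Polynomial.map_ne_zero_iff (RingHom.injective_int _)).2 H0)
      refine (NNReal.coe_lt_coe.2 this).le.trans ?_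
      rw [cauchyBound, leadingCoeff_map_of_injective (RingHom.injective_int _)]
      push_cast
      gcongr
      refine (div_le_self (NNReal.coe_nonneg _) ?_).trans ?_
      · rw [eq_intCast, Complex.norm_intCast]; exact_mod_cast Int.one_le_abs a0
      · rw [← Real.le_toNNReal_iff_coe_le (by linarith)]
        refine Finset.sup_le fun i _ => (Real.le_toNNReal_iff_coe_le (by linarith)).2 ?_
        rw [coeff_map, eq_intCast, coe_nnnorm, Complex.norm_intCast]; exact cH i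
    have r2 : |(H.leadingCoeff : ℝ)| ≤ B := cH _
    obtain ⟨r3, r4, -⟩ := hS x hx
    simp only [β, η, map_sub, map_mul, map_intCast, RingOfIntegers.map_mk, zsmul_eq_mul]
    refine (norm_sub_le _ _).trans ?_
    simp only [norm_mul, Complex.norm_intCast]
    calc _ ≤ B * B + B * (B + 1) * B := by gcongr
      _ ≤ _ := by nlinarith [mul_nonneg (sub_nonneg.2 B3) (show 0 ≤ B ^ 3 by positivity),
        mul_nonneg (sub_nonneg.2 B3) (show 0 ≤ B ^ 2 by positivity)]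
  have cσ : Fintype.card (K →ₐ[ℚ] ℂ) = Module.finrank ℚ K := AlgHom.card ℚ K ℂ
  have B4 : 1 ≤ B ^ 4 := one_le_pow₀ B1
  have lo : ∀ x ∈ S, ∀ σ : K →ₐ[ℚ] ℂ, 1 ≤ (B ^ 4) ^ (R + 1) * ‖σ (β x.1 x.2)‖ := fun x hx σ => by
    refine (one_le_prod (β0 x hx)).trans ?_
    rw [← prod_erase_mul _ _ (mem_univ σ)]
    gcongr
    refine (prod_le_prod (fun _ _ => norm_nonneg _) fun σ' _ => up x hx σ').trans ?_
    rw [prod_const]
    exact pow_le_pow_right₀ B4 ((card_le_univ _).trans (by omega))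
  obtain ⟨I, i1, i2⟩ := h2 (B ^ (8 * R + 8)) (one_le_pow₀ B1)
  obtain ⟨lab, hl⟩ := exists_label (A := (B ^ 4) ^ (R + 1)) (I := I) (by positivity) (by
    rw [← pow_mul, ← pow_mul]; convert i1 using 2; ring)
  have hl' := fun x hx σ => hl _ (lo x hx σ) ((up x hx σ).trans (le_self_pow₀ B4 R.succ_ne_zero))
  have key := card_le_card_of_injOn (s := S)
    (t := T ×ˢ Fintype.piFinset fun _ : K →ₐ[ℚ] ℂ => range I ×ˢ range 9 ×ˢ range 9)
    (fun x => (Ideal.span {β x.1 x.2}, fun σ => lab (σ (β x.1 x.2))))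
    (fun x hx => mem_coe.2 (mem_product.2 ⟨t2 _ (Ideal.dvd_iff_le.2 (Ideal.span_singleton_le_span_singleton.2
      (hd x hx))), Fintype.mem_piFinset.2 fun σ => (hl' x hx σ).1⟩)) fun x hx y hy he => by
      simp only [Prod.mk.injEq] at he
      obtain ⟨u, hu⟩ := (Ideal.span_singleton_eq_span_singleton.1 he.1).dvd
      have u1 : u - 1 = 0 := by
        by_contra h
        have ne : (univ : Finset (K →ₐ[ℚ] ℂ)).Nonempty := card_pos.1 (by
          rw [card_univ, cσ]; exact Module.finrank_pos)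
        refine (one_le_prod h).not_gt ((prod_lt_prod_of_nonempty (g := fun _ => 1) (fun σ _ => by
          rwa [norm_pos_iff, _root_.map_ne_zero, RingOfIntegers.coe_ne_zero_iff]) (fun σ _ => ?_) ne).trans_eq prod_const_one)
        have k1 := (hl' x hx σ).2 _ (lo y hy σ) (congrFun he.2 σ)
        rw [hu, RingOfIntegers.coe_eq_algebraMap, map_mul, map_mul, ← mul_sub_one, norm_mul] at k1
        simpa using lt_of_mul_lt_mul_left (k1.trans_eq (mul_one _).symm) (norm_nonneg _)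
      refine (hS x hx).2.2.2 y hy ?_
      have k2 := hβ (x.1 - y.1) (x.2 - y.2)
      rw [show β (x.1 - y.1) (x.2 - y.2) = 0 by
        simp only [β] at hu ⊢; push_cast; linear_combination -hu - (H.leadingCoeff * x.1 - η * x.2) * u1, zero_dvd_iff,
        Int.cast_eq_zero] at k2
      exact (mul_eq_zero.1 k2).resolve_left (pow_ne_zero _ a0)
  rw [card_product, Fintype.card_piFinset, prod_const, card_univ, cσ, card_product, card_product,
    card_range, card_range] at key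
  have k1 := h1 _ n0 (B ^ (8 * R + 8)) (by
    rw [Nat.cast_natAbs, Int.cast_abs, Int.cast_mul, Int.cast_pow, abs_mul, abs_pow]
    calc _ ≤ B ^ H.natDegree * B := by gcongr; exact cH _
      _ ≤ _ := by rw [← pow_succ]; exact pow_le_pow_right₀ B1 (by omega))
  set x := (B ^ (8 * R + 8)) ^ (ε / (2 * (R + 1) * (8 * R + 8) : ℕ)) with hx
  have x1 : 1 ≤ x := Real.one_le_rpow (one_le_pow₀ B1) (by positivity)
  have x2 : (x * x) ^ (R + 1) = B ^ ε := by
    rw [← pow_two, ← pow_mul, hx, ← Real.rpow_natCast B, ← Real.rpow_mul (by linarith),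
      ← Real.rpow_natCast, ← Real.rpow_mul (by linarith)]
    congr 1; push_cast; field_simp
  calc (#S : ℝ) ≤ (C₁ * x) ^ Module.finrank ℚ K * (C₂ * x * 81) ^ Module.finrank ℚ K := by
        refine (Nat.cast_le.2 (key.trans (Nat.mul_le_mul_right _ t1))).trans ?_
        push_cast; gcongr
    _ ≤ (C₁ * x * (C₂ * x * 81)) ^ (R + 1) := by
        rw [← mul_pow]
        refine pow_le_pow_right₀ (one_le_mul_of_one_le_of_one_le (one_le_mul_of_one_le_of_one_le c1 x1)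
          (by nlinarith)) (by omega)
    _ = _ := by rw [← x2, ← mul_pow]; congr 1; ring

end Pool.Agent.MP_d0fd9b_nt.H72
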