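import Pool.Agent.MP_d0fd9b_nt.H72.Cell
import Pool.Agent.MP_d0fd9b_nt.H72.Defs

/-! Split primes and the bound for the torsion of the class group by cells. -/

set_option autoImplicit false

namespace Pool.Agent.MP_d0fd9b_nt.H72

open QuadraticAlgebra Ideal Finset

variable {a b : ℤ}

/-- a balanced primitive solution of the norm equation -/
def Sol (l : ℕ) (d : ℤ) (m : ℕ) : Prop :=
  ∃ u v : ℤ, (u ^ 2 - d * v ^ 2 = 4 * m ^ l ∨ u ^ 2 - d * v ^ 2 = -(4 * m ^ l)) ∧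
    IsCoprime v m ∧ IsCoprime d m ∧ u ^ 2 + |d| * v ^ 2 ≤ 8 * m ^ l

lemma split_prime [IsDedekindDomain (QuadraticAlgebra ℤ a b)] {p : ℕ} (hp : p.Prime) (h2 : Odd p)
    (hD : ¬ (p : ℤ) ∣ b ^ 2 + 4 * a) {r : ℤ} (hr : (p : ℤ) ∣ r ^ 2 - (b ^ 2 + 4 * a)) :
    ∃ A B : Ideal (QuadraticAlgebra ℤ a b), A * B = span {(p : QuadraticAlgebra ℤ a b)} ∧
      absNorm A = p ∧ absNorm B = p ∧ IsCoprime A B := by
  obtain ⟨k, hk⟩ := h2
  have hk' : (p : ℤ) = 2 * k + 1 := by exact_mod_cast hk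
  have hpz : Prime (p : ℤ) := Nat.prime_iff_prime_int.1 hp
  obtain ⟨c, hc⟩ : ∃ c : ℤ, 2 * c + b = r + p * (r - b) := ⟨(r - b) * (k + 1), by rw [hk']; ring⟩
  obtain ⟨s, hs⟩ := hr
  have hn : (p : ℤ) ∣ c * c + b * c - a := by
    have h4 : (p : ℤ) ∣ 2 ^ 2 * (c * c + b * c - a) :=
      ⟨s + 2 * r * (r - b) + p * (r - b) ^ 2, by
        linear_combination (2 * c + b + r + p * (r - b)) * hc + hs⟩
    refine (hpz.dvd_or_dvd h4).resolve_left fun h => ?_
    have := Int.le_of_dvd two_pos (hpz.dvd_of_dvd_pow h)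
    have := hp.two_le
    omega
  have hcop : IsCoprime (p : ℤ) (2 * c + b) := by
    refine (Prime.coprime_iff_not_dvd hpz).2 fun h => hD ?_
    rw [hc] at h
    have h3 : (p : ℤ) ∣ r := (dvd_add_left (dvd_mul_right _ _)).1 h
    have : b ^ 2 + 4 * a = r * r - p * s := by linear_combination -hs
    rw [this]
    exact dvd_sub (h3.mul_left _) (dvd_mul_right _ _)
  let z : QuadraticAlgebra ℤ a b := ⟨c, 1⟩
  let w : QuadraticAlgebra ℤ a b := ⟨c + b, -1⟩
  have hA : ∀ x : QuadraticAlgebra ℤ a b,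
      (p : QuadraticAlgebra ℤ a b) ∈ span {(p : QuadraticAlgebra ℤ a b), x} := fun x =>
    subset_span (by simp)
  have hA' : ∀ x : QuadraticAlgebra ℤ a b, x ∈ span {(p : QuadraticAlgebra ℤ a b), x} := fun x =>
    subset_span (by simp)
  have hco : IsCoprime (span {(p : QuadraticAlgebra ℤ a b), z}) 
      (span {(p : QuadraticAlgebra ℤ a b), w}) := by
    obtain ⟨u, v, huv⟩ := hcop
    refine isCoprime_iff_exists.2 ⟨(u : ℤ) * p + (v : ℤ) * z, ?_, (v : ℤ) * w, ?_, ?_⟩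
    · exact add_mem (mul_mem_left _ _ (hA z)) (mul_mem_left _ _ (hA' z))
    · exact mul_mem_left _ _ (hA' w)
    · ext
      · simp [z, w]; linear_combination huv
      · simp [z, w]
  have hmul : span {(p : QuadraticAlgebra ℤ a b), z} * span {(p : QuadraticAlgebra ℤ a b), w} =
      span {(p : QuadraticAlgebra ℤ a b)} := by
    apply le_antisymm
    · rw [span_mul_span, span_le]
      rintro x ⟨y, hy, y', hy', rfl⟩
      simp only [Set.mem_insert_iff, Set.mem_singleton_iff] at hy hy'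
      rw [SetLike.mem_coe, mem_span_singleton]
      rcases hy with rfl | rfl
      · exact dvd_mul_right _ _
      · rcases hy' with rfl | rfl
        · exact dvd_mul_left _ _
        · obtain ⟨t, ht⟩ := hn
          refine ⟨(t : ℤ), ?_⟩
          ext
          · simp [z, w]; linear_combination ht
          · simp [z, w]
    · rw [mul_eq_inf_of_isCoprime hco, span_singleton_le_iff_mem]
      exact ⟨hA z, hA w⟩
  have hnd : ∀ x : QuadraticAlgebra ℤ a b, x.im ^ 2 = 1 →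
      x ∉ span {(p : QuadraticAlgebra ℤ a b)} := fun x hx h => by
    obtain ⟨t, ht⟩ := mem_span_singleton.1 h
    have h5 : x.im = p * t.im := by rw [ht]; simp
    have : (p : ℤ) ∣ 1 := ⟨p * t.im ^ 2, by rw [← hx, h5]; ring⟩
    exact hpz.not_dvd_one this
  have hN := congrArg absNorm hmul
  rw [map_mul, absNorm_span_singleton, alg_norm, QuadraticAlgebra.norm_natCast] at hN
  have := (hp.mul_eq_prime_sq_iff (fun h => ?_) (fun h => ?_)).1 (hN.trans (by simp [Int.natAbs_pow]))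
  · exact ⟨_, _, hmul, this.1, this.2, hco⟩
  · rw [absNorm_eq_one_iff.1 h, top_mul] at hmul
    exact hnd w (by simp [w]) (hmul ▸ hA' w)
  · rw [absNorm_eq_one_iff.1 h, mul_top] at hmul
    exact hnd z (by simp [z]) (hmul ▸ hA' z)

lemma sol_of_cell [IsDedekindDomain (QuadraticAlgebra ℤ a b)] {δ : ℂ} (hδ : δ * δ = b ^ 2 + 4 * a)
    {l p p' : ℕ} (hl : l ≠ 0) (hp : p.Prime) (hp' : p'.Prime) (hne : p ≠ p') (o : Odd p) (o' : Odd p')
    (hD : ¬ (p : ℤ) ∣ b ^ 2 + 4 * a) (hD' : ¬ (p' : ℤ) ∣ b ^ 2 + 4 * a)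
    {A B A' B' C : Ideal (QuadraticAlgebra ℤ a b)} {α α' : QuadraticAlgebra ℤ a b}
    (h1 : A * B = span {(p : QuadraticAlgebra ℤ a b)}) (h2 : absNorm A = p) (h3 : absNorm B = p)
    (h4 : IsCoprime A B)
    (h1' : A' * B' = span {(p' : QuadraticAlgebra ℤ a b)}) (h2' : absNorm A' = p')
    (h3' : absNorm B' = p') (h4' : IsCoprime A' B') (α0 : α' ≠ 0)
    (e : A ^ l * C = span {α}) (e' : A' ^ l * C = span {α'})
    (r1 : ‖ec ((b + δ) / 2) α‖ * ‖ec ((b - δ) / 2) α'‖ ≤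
      2 * (‖ec ((b - δ) / 2) α‖ * ‖ec ((b + δ) / 2) α'‖))
    (r2 : ‖ec ((b + δ) / 2) α'‖ * ‖ec ((b - δ) / 2) α‖ ≤
      2 * (‖ec ((b - δ) / 2) α'‖ * ‖ec ((b + δ) / 2) α‖)) :
    Sol l (b ^ 2 + 4 * a) (p * p') := by
  have e1 : span {α * ((p' ^ l : ℕ) : QuadraticAlgebra ℤ a b)} = span {α'} * (A * B') ^ l := by
    rw [← span_singleton_mul_span_singleton, Nat.cast_pow, ← span_singleton_pow, ← h1', ← e, ← e']
    ring
  obtain ⟨γ, hγ⟩ : α' ∣ α * ((p' ^ l : ℕ) : QuadraticAlgebra ℤ a b) := by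
    rw [← mem_span_singleton, ← span_singleton_le_iff_mem, e1]
    exact Ideal.le_of_dvd (dvd_mul_right _ _)
  have s0 : (span {α'} : Ideal (QuadraticAlgebra ℤ a b)) ≠ 0 := fun h =>
    α0 (span_singleton_eq_bot.1 h)
  have e2 : span {γ} = (A * B') ^ l := by
    rw [hγ, ← span_singleton_mul_span_singleton] at e1
    exact mul_left_cancel₀ s0 e1
  have hN : γ.norm.natAbs = (p * p') ^ l := by
    have := congrArg absNorm e2
    rwa [absNorm_span_singleton, alg_norm, map_pow, map_mul, h2, h3'] at this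
  have e3 : (2 * γ.re + b * γ.im) ^ 2 - (b ^ 2 + 4 * a) * γ.im ^ 2 = 4 * γ.norm := by
    rw [norm_def]; ring
  have hnd : ∀ (q : ℕ) (X Y : Ideal (QuadraticAlgebra ℤ a b)), q.Prime → Odd q → q ∣ p * p' →
      X * Y = span {(q : QuadraticAlgebra ℤ a b)} → absNorm Y = q → IsCoprime Y (A * B') →
      IsCoprime γ.im q := fun q X Y hq oq hd hXY hY hco => by
    have hqz : Prime (q : ℤ) := Nat.prime_iff_prime_int.1 hq
    refine ((Prime.coprime_iff_not_dvd hqz).2 fun h => ?_).symm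
    have d1 : (q : ℤ) ∣ γ.norm := by
      rw [← Int.dvd_natAbs, hN]
      exact_mod_cast hd.trans (dvd_pow_self _ hl)
    have d2 : (q : ℤ) ∣ (2 * γ.re + b * γ.im) ^ 2 := by
      rw [eq_add_of_sub_eq e3]
      exact dvd_add (d1.mul_left _) ((h.trans (dvd_pow_self _ two_ne_zero)).mul_left _)
    have d3 : (q : ℤ) ∣ 2 * γ.re := (dvd_add_left (h.mul_left b)).1 (hqz.dvd_of_dvd_pow d2)
    have d4 : (q : ℤ) ∣ γ.re := (hqz.dvd_or_dvd d3).resolve_left fun h => by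
      have := Int.le_of_dvd two_pos h
      have := hq.two_le
      obtain ⟨k, hk⟩ := oq
      omega
    obtain ⟨s, hs⟩ := d4
    obtain ⟨t, ht⟩ := h
    have d5 : Y ∣ (A * B') ^ l := by
      rw [← e2]
      refine (dvd_mul_left Y X).trans ?_
      rw [hXY, Ideal.dvd_iff_le, span_singleton_le_span_singleton]
      exact ⟨⟨s, t⟩, by ext <;> simp [hs, ht]⟩
    have d6 := (hco.pow_right (n := l)).isUnit_of_dvd d5
    rw [isUnit_iff.1 d6, absNorm_top] at hY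
    exact hq.one_lt.ne hY
  have hcp : ∀ X Y : Ideal (QuadraticAlgebra ℤ a b), absNorm X = p → absNorm Y = p' →
      IsCoprime X Y := fun X Y hX hY => by
    obtain ⟨u, v, huv⟩ := Nat.isCoprime_iff_coprime.2 ((Nat.coprime_primes hp hp').2 hne)
    refine isCoprime_iff_exists.2 ⟨(u : ℤ) * p, mul_mem_left _ _ (hX ▸ absNorm_mem X),
      (v : ℤ) * p', mul_mem_left _ _ (hY ▸ absNorm_mem Y), ?_⟩
    exact_mod_cast congrArg (Int.cast : ℤ → QuadraticAlgebra ℤ a b) huv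
  refine ⟨2 * γ.re + b * γ.im, γ.im, ?_, ?_, ?_, ?_⟩
  · rw [e3]
    have : ((p * p' : ℕ) : ℤ) ^ l = (γ.norm.natAbs : ℤ) := by rw [hN]; push_cast; ring
    rw [this]
    omega
  · push_cast
    exact (hnd p A B hp o (dvd_mul_right _ _) h1 h3 (h4.symm.mul_right (hcp _ _ h3 h3'))).mul_right
      (hnd p' B' A' hp' o' (dvd_mul_left _ _) (by rw [mul_comm, h1']) h2'
        ((hcp _ _ h2 h2').symm.mul_right h4'))
  · push_cast
    exact ((Prime.coprime_iff_not_dvd (Nat.prime_iff_prime_int.1 hp)).2 hD).symm.mul_right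
      ((Prime.coprime_iff_not_dvd (Nat.prime_iff_prime_int.1 hp')).2 hD').symm
  · have hw1 : ((b : ℂ) + δ) / 2 * ((b + δ) / 2) = a + b * ((b + δ) / 2) := by
      linear_combination hδ / 4
    have hw2 : ((b : ℂ) - δ) / 2 * ((b - δ) / 2) = a + b * ((b - δ) / 2) := by
      linear_combination hδ / 4
    have f : ∀ w : ℂ, w * w = a + b * w → ‖ec w α‖ * p' ^ l = ‖ec w α'‖ * ‖ec w γ‖ := fun w hw => by
      rw [← norm_mul, ← ec_mul hw, ← hγ, ec_mul hw, norm_mul]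
      congr 1
      rw [ec, re_natCast, im_natCast]
      simp
    have f1 := f _ hw1
    have f2 := f _ hw2
    have g : ‖ec ((b + δ) / 2) γ‖ * ‖ec ((b - δ) / 2) γ‖ = ((p * p' : ℕ) : ℝ) ^ l := by
      rw [← norm_mul, ec_norm hδ, Complex.norm_intCast, ← Int.cast_abs, ← Int.natCast_natAbs, hN]
      push_cast; ring
    have g' : 0 < ‖ec ((b + δ) / 2) α'‖ * ‖ec ((b - δ) / 2) α'‖ := by
      rw [← norm_mul, ec_norm hδ, Complex.norm_intCast, abs_pos]
      intro h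
      have h' : α'.norm = 0 := by exact_mod_cast h
      apply s0
      rw [zero_eq_bot, ← absNorm_eq_zero_iff, absNorm_span_singleton, alg_norm, h']
      rfl
    have t0 : (0 : ℝ) ≤ p' ^ l := by positivity
    have r3 := mul_le_mul_of_nonneg_right r1 t0
    have r4 := mul_le_mul_of_nonneg_right r2 t0
    have x0 := norm_nonneg (ec ((b + δ) / 2) γ)
    have y0 := norm_nonneg (ec ((b - δ) / 2) γ)
    have k := ec_sz hδ γ
    generalize ‖ec ((b + δ) / 2) γ‖ = x at *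
    generalize ‖ec ((b - δ) / 2) γ‖ = y at *
    generalize ‖ec ((b + δ) / 2) α'‖ = x' at *
    generalize ‖ec ((b - δ) / 2) α'‖ = y' at *
    have r5 : x ≤ 2 * y := le_of_mul_le_mul_left (a := x' * y') (by
      linear_combination r3 - y' * f1 + 2 * x' * f2) g'
    have r6 : y ≤ 2 * x := le_of_mul_le_mul_left (a := x' * y') (by
      linear_combination r4 - x' * f2 + 2 * y' * f1) g'
    have : (sz γ : ℝ) ≤ 8 * ((p * p' : ℕ) : ℝ) ^ l := by rw [← k, ← g]; nlinarith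
    unfold sz at this
    exact_mod_cast this

lemma card_sq_le {α β : Type} [DecidableEq β] (s : Finset α) (t : Finset β) (f : α → β)
    (h : ∀ x ∈ s, f x ∈ t) : s.card ^ 2 ≤ t.card * ((s ×ˢ s).filter fun x => f x.1 = f x.2).card := by
  classical
  rw [card_eq_sum_card_fiberwise h]
  refine sq_sum_le_card_mul_sum_sq.trans (Nat.mul_le_mul_left _ (le_of_eq ?_))
  rw [card_eq_sum_card_fiberwise (s := (s ×ˢ s).filter fun x => f x.1 = f x.2) (t := t)
    (f := fun x => f x.1) fun x hx => h _ (mem_product.1 (mem_filter.1 hx).1).1]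
  refine sum_congr rfl fun y _ => ?_
  rw [pow_two, ← card_product]
  congr 1
  ext ⟨x, x'⟩
  simp only [mem_product, mem_filter]
  constructor
  · rintro ⟨⟨h1, h2⟩, h3, h4⟩
    exact ⟨⟨⟨h1, h3⟩, h2.trans h4.symm⟩, h2⟩
  · rintro ⟨⟨⟨h1, h3⟩, h2⟩, h4⟩
    exact ⟨⟨h1, h4⟩, h3, h2.symm.trans h4⟩

lemma cls_eq {R : Type} [CommRing R] [IsDedekindDomain R] {X X' J : Ideal R} {l : ℕ}
    {C C' : nonZeroDivisors (Ideal R)} {α α' : R} (hX : X ≠ ⊥) (hX' : X' ≠ ⊥) (α0 : α ≠ 0)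
    (α0' : α' ≠ 0) (e : X ^ l * C * J = span {α}) (e' : X' ^ l * C' * J = span {α'}) :
    ClassGroup.mk0 ⟨X, mem_nonZeroDivisors_of_ne_zero hX⟩ ^ l * ClassGroup.mk0 C =
      ClassGroup.mk0 ⟨X', mem_nonZeroDivisors_of_ne_zero hX'⟩ ^ l * ClassGroup.mk0 C' := by
  have J0 : J ≠ 0 := by
    rintro rfl
    rw [mul_zero, eq_comm, zero_eq_bot, span_singleton_eq_bot] at e
    exact α0 e
  have e1 := (ClassGroup.mk0_eq_mk0_inv_iff (I := ⟨X, mem_nonZeroDivisors_of_ne_zero hX⟩ ^ l * C)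
    (J := ⟨_, mem_nonZeroDivisors_of_ne_zero J0⟩)).2 ⟨_, α0, by simpa using e⟩
  have e2 := (ClassGroup.mk0_eq_mk0_inv_iff (I := ⟨X', mem_nonZeroDivisors_of_ne_zero hX'⟩ ^ l * C')
    (J := ⟨_, mem_nonZeroDivisors_of_ne_zero J0⟩)).2 ⟨_, α0', by simpa using e'⟩
  rwa [← e2, map_mul, map_mul, map_pow, map_pow] at e1

open Classical in
theorem torsion_le [IsDedekindDomain (QuadraticAlgebra ℤ a b)]
    [Finite (ClassGroup (QuadraticAlgebra ℤ a b))] (hb : |b| ≤ 1) {Δ : ℝ} (h1 : 1 ≤ Δ)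
    (hΔ : Δ ^ 2 = |((b ^ 2 + 4 * a : ℤ) : ℝ)|) {Y k l : ℕ} (hl : l ≠ 0)
    (hY : 5 * Δ ≤ Y) (hk : 25 * Δ ^ 2 < 2 ^ k) (P : Finset ℕ)
    (hP : ∀ p ∈ P, p.Prime ∧ Odd p ∧ ¬ (p : ℤ) ∣ b ^ 2 + 4 * a ∧
      ∃ r : ℤ, (p : ℤ) ∣ r ^ 2 - (b ^ 2 + 4 * a)) :
    Nat.card {c : ClassGroup (QuadraticAlgebra ℤ a b) // c ^ l = 1} ≤
      (∑ m ∈ Icc 1 Y, (roots a b m).card) * k ∧
    Nat.card {c : ClassGroup (QuadraticAlgebra ℤ a b) // c ^ l = 1} * P.card ^ 2 ≤
      (∑ m ∈ Icc 1 Y, (roots a b m).card) * k * (P.card +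
        ((P ×ˢ P).filter fun x => x.1 ≠ x.2 ∧ Sol l (b ^ 2 + 4 * a) (x.1 * x.2)).card) := by
  obtain ⟨δ, hδ⟩ : ∃ δ : ℂ, δ * δ = b ^ 2 + 4 * a := by
    obtain ⟨δ, h⟩ := IsAlgClosed.exists_eq_mul_self ((b : ℂ) ^ 2 + 4 * a)
    exact ⟨δ, h.symm⟩
  obtain ⟨F, hF, hF'⟩ := cells hb h1 hΔ hδ hY hk
  have hT : ((Icc 1 Y).sigma (roots a b) ×ˢ range k).card = (∑ m ∈ Icc 1 Y, (roots a b m).card) * k := by
    rw [card_product, card_sigma, card_range]
  let φ : ClassGroup (QuadraticAlgebra ℤ a b) →* ClassGroup (QuadraticAlgebra ℤ a b) :=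
    powMonoidHom l
  let _ := Fintype.ofFinite (ClassGroup (QuadraticAlgebra ℤ a b) ⧸ φ.range)
  have hH : Nat.card {c : ClassGroup (QuadraticAlgebra ℤ a b) // c ^ l = 1} =
      Fintype.card (ClassGroup (QuadraticAlgebra ℤ a b) ⧸ φ.range) := by
    rw [← Nat.card_eq_fintype_card, ← Subgroup.index_eq_card, Subgroup.index_range]
    exact Nat.card_congr (Equiv.subtypeEquivRight fun x => by simp [φ])
  choose I hI using (QuotientGroup.mk_surjective (s := φ.range)).comp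
    (ClassGroup.mk0_surjective (R := QuadraticAlgebra ℤ a b))
  have I0 : ∀ s, (I s : Ideal (QuadraticAlgebra ℤ a b)) ≠ ⊥ := fun s => nonZeroDivisors.ne_zero (I s).2
  have hcl : ∀ (X X' : Ideal (QuadraticAlgebra ℤ a b)) s s', X ≠ ⊥ → X' ≠ ⊥ →
      F (X ^ l * I s) = F (X' ^ l * I s') → s = s' := fun X X' s s' hX hX' h => by
    obtain ⟨J, α, α', α0, α0', e, e', -⟩ := hF' _ _ (mul_ne_zero (pow_ne_zero l hX) (I0 s))
      (mul_ne_zero (pow_ne_zero l hX') (I0 s')) h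
    have e1 := cls_eq hX hX' α0 α0' e e'
    have k : ∀ x y : ClassGroup (QuadraticAlgebra ℤ a b),
        ((x ^ l * y : ClassGroup (QuadraticAlgebra ℤ a b)) : _ ⧸ φ.range) = (y : _ ⧸ φ.range) :=
      fun x y => by
        rw [QuotientGroup.mk_mul, (QuotientGroup.eq_one_iff (N := φ.range) (x ^ l)).2
          (MonoidHom.mem_range.2 ⟨x, rfl⟩), one_mul]
    exact (hI s).symm.trans (((k _ _).symm.trans ((congrArg QuotientGroup.mk e1).trans (k _ _))).trans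
      (hI s'))
  rw [hH, ← hT]
  refine ⟨?_, ?_⟩
  · rw [← card_univ]
    exact card_le_card_of_injOn (fun s => F (⊤ ^ l * I s))
      (fun s _ => hF _ (mul_ne_zero (pow_ne_zero l top_ne_bot) (I0 s)))
      fun s _ s' _ h => hcl _ _ _ _ top_ne_bot top_ne_bot h
  choose! A B h1 h2 h3 h4 using fun p (hp : p ∈ P) =>
    split_prime (hP p hp).1 (hP p hp).2.1 (hP p hp).2.2.1 (hP p hp).2.2.2.choose_spec
  have A0 : ∀ p ∈ P, A p ≠ ⊥ := fun p hp h =>
    (hP p hp).1.ne_zero ((h2 p hp).symm.trans (absNorm_eq_zero_iff.2 h))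
  have key := card_sq_le (P ×ˢ univ) _ (fun x => F (A x.1 ^ l * I x.2)) fun x hx =>
    hF _ (mul_ne_zero (pow_ne_zero l (A0 _ (mem_product.1 hx).1)) (I0 _))
  have key2 : (((P ×ˢ univ) ×ˢ (P ×ˢ univ)).filter fun x =>
      F (A x.1.1 ^ l * I x.1.2) = F (A x.2.1 ^ l * I x.2.2)).card ≤
      (univ ×ˢ (P.diag ∪ (P ×ˢ P).filter fun x => x.1 ≠ x.2 ∧ Sol l (b ^ 2 + 4 * a) (x.1 * x.2)) :
        Finset ((ClassGroup (QuadraticAlgebra ℤ a b) ⧸ φ.range) × ℕ × ℕ)).card := by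
    refine card_le_card_of_injOn (fun x => (x.1.2, x.1.1, x.2.1)) ?_ ?_
    · rintro ⟨⟨p, s⟩, p', s'⟩ hx
      simp only [coe_filter, mem_product, mem_univ, and_true, Set.mem_ofPred_eq] at hx
      obtain ⟨⟨hp, hp'⟩, h⟩ := hx
      obtain rfl := hcl _ _ _ _ (A0 p hp) (A0 p' hp') h
      simp only [coe_product, coe_univ, Set.mem_prod, Set.mem_univ, true_and, mem_coe, mem_union,
        mem_diag, mem_filter, mem_product]
      rcases eq_or_ne p p' with hpp | hpp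
      · exact Or.inl ⟨hp, hpp⟩
      refine Or.inr ⟨⟨hp, hp'⟩, hpp, ?_⟩
      obtain ⟨J, α, α', α0, α0', e, e', r1, r2⟩ := hF' _ _
        (mul_ne_zero (pow_ne_zero l (A0 p hp)) (I0 s)) (mul_ne_zero (pow_ne_zero l (A0 p' hp')) (I0 s)) h
      rw [mul_assoc] at e e'
      exact sol_of_cell hδ hl (hP p hp).1 (hP p' hp').1 hpp (hP p hp).2.1 (hP p' hp').2.1
        (hP p hp).2.2.1 (hP p' hp').2.2.1 (h1 p hp) (h2 p hp) (h3 p hp) (h4 p hp) (h1 p' hp')
        (h2 p' hp') (h3 p' hp') (h4 p' hp') α0' e e' r1 r2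
    · rintro ⟨⟨p, s⟩, p', s'⟩ hx ⟨⟨q, t⟩, q', t'⟩ hy h
      simp only [coe_filter, mem_product, mem_univ, and_true, Set.mem_ofPred_eq] at hx hy
      simp only [Prod.mk.injEq] at h
      obtain rfl := hcl _ _ _ _ (A0 p hx.1.1) (A0 p' hx.1.2) hx.2
      obtain rfl := hcl _ _ _ _ (A0 q hy.1.1) (A0 q' hy.1.2) hy.2
      rw [h.1, h.2.1, h.2.2]
  rw [card_product, card_univ] at key key2
  have key3 := key2.trans (Nat.mul_le_mul_left _ (card_union_le _ _))
  rw [diag_card] at key3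
  have H0 : 0 < Fintype.card (ClassGroup (QuadraticAlgebra ℤ a b) ⧸ φ.range) := Fintype.card_pos
  refine Nat.le_of_mul_le_mul_left ?_ H0
  have := key.trans (Nat.mul_le_mul_left _ key3)
  calc _ = (P.card * Fintype.card (ClassGroup (QuadraticAlgebra ℤ a b) ⧸ φ.range)) ^ 2 := by ring
    _ ≤ _ := this
    _ = _ := by ring

end Pool.Agent.MP_d0fd9b_nt.H72
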