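import Pool.Agent.MP_d0fd9b_nt.H72.Split

/-! The torsion bound for the field `ℚ(√d)`. -/

set_option autoImplicit false

namespace Pool.Agent.MP_d0fd9b_nt.H72

open QuadraticAlgebra Finset NumberField

theorem torsion_eq {d : ℤ} (hs : Squarefree d) (h1 : d ≠ 1) (l : ℕ) : ∃ (a b f : ℤ)
    (_ : IsDedekindDomain (QuadraticAlgebra ℤ a b))
    (_ : Finite (ClassGroup (QuadraticAlgebra ℤ a b))), |b| ≤ 1 ∧ (f = 1 ∨ f = 2) ∧
      b ^ 2 + 4 * a = f ^ 2 * d ∧
      torsion l d = Nat.card {c : ClassGroup (QuadraticAlgebra ℤ a b) // c ^ l = 1} := by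
  obtain ⟨t, ht⟩ := IsAlgClosed.exists_eq_mul_self (d : ℂ)
  have hirr : ∀ r : ℚ, t ≠ r := fun r hr => by
    have h2 : IsSquare (d : ℚ) := ⟨r, by
      rw [hr] at ht
      exact_mod_cast ht⟩
    obtain ⟨s, rfl⟩ := Rat.isSquare_intCast_iff.1 h2
    rcases Int.isUnit_iff.1 (hs s dvd_rfl) with rfl | rfl <;> simp at h1
  have hroot : Polynomial.aeval t (Polynomial.X ^ 2 - Polynomial.C (d : ℚ)) = 0 := by
    simp [pow_two, ht]
  have hmon : (Polynomial.X ^ 2 - Polynomial.C (d : ℚ)).Monic :=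
    Polynomial.monic_X_pow_sub_C _ two_ne_zero
  have hint : IsIntegral ℚ t := ⟨_, hmon, by rwa [← Polynomial.aeval_def]⟩
  have hKK : IntermediateField.adjoin ℚ {z : ℂ | z ^ 2 = d} = IntermediateField.adjoin ℚ {t} := by
    apply le_antisymm
    · rw [IntermediateField.adjoin_le_iff]
      intro z hz
      have h2 : z ^ 2 = t ^ 2 := by rw [pow_two t, ← ht]; exact hz
      rcases sq_eq_sq_iff_eq_or_eq_neg.1 h2 with rfl | rfl
      · exact IntermediateField.mem_adjoin_simple_self ℚ _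
      · exact neg_mem (IntermediateField.mem_adjoin_simple_self ℚ t)
    · apply IntermediateField.adjoin.mono
      rintro z rfl
      exact (pow_two z).trans ht.symm
  let K := IntermediateField.adjoin ℚ {z : ℂ | z ^ 2 = d}
  replace hKK : K = IntermediateField.adjoin ℚ {t} := hKK
  have hfin : FiniteDimensional ℚ K := hKK ▸ IntermediateField.adjoin.finiteDimensional hint
  have hnf : NumberField K := {}
  have hK : Module.finrank ℚ K = 2 := by
    rw [hKK, IntermediateField.adjoin.finrank hint]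
    apply le_antisymm
    · have := Polynomial.natDegree_le_natDegree (minpoly.min ℚ _ hmon hroot)
      rwa [Polynomial.natDegree_X_pow_sub_C] at this
    · exact (minpoly.two_le_natDegree_iff hint).2 fun ⟨r, hr⟩ => hirr r (by simpa using hr.symm)
  let θ : K := ⟨t, hKK ▸ IntermediateField.mem_adjoin_simple_self ℚ _⟩
  have hθ2 : θ * θ = (d : K) := Subtype.ext (by simp [θ, ht])
  have hθq : ∀ r : ℚ, θ ≠ r := fun r hr => hirr r (by simpa using congrArg Subtype.val hr)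
  have h4 : d % 4 = 1 ∨ d % 4 = 2 ∨ d % 4 = 3 := by
    have : ¬ (2 * 2 : ℤ) ∣ d := fun h => by
      have := Int.isUnit_iff.1 (hs 2 h)
      omega
    omega
  have fin : ∀ {a b : ℤ} [IsDedekindDomain (QuadraticAlgebra ℤ a b)]
      (_ : 𝓞 K ≃+* QuadraticAlgebra ℤ a b), Finite (ClassGroup (QuadraticAlgebra ℤ a b)) ∧
      Nat.card {c : ClassGroup (𝓞 K) // c ^ l = 1} =
        Nat.card {c : ClassGroup (QuadraticAlgebra ℤ a b) // c ^ l = 1} := fun e =>
    ⟨Finite.of_equiv _ (ClassGroup.mulEquiv e).toEquiv,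
      Nat.card_congr ((ClassGroup.mulEquiv e).toEquiv.subtypeEquiv fun c => by
        rw [← (ClassGroup.mulEquiv e).map_eq_one_iff, map_pow]; rfl)⟩
  rcases h4 with h4 | h4
  · obtain ⟨a, ha⟩ : ∃ a : ℤ, 4 * a + 1 = d := ⟨d / 4, by omega⟩
    have hF : Fund a 1 := Or.inl ⟨rfl, ha ▸ hs⟩
    obtain ⟨hd, ⟨e⟩⟩ := structure_thm hF K hK ((1 + θ) / 2) (by
      have : ((4 * a + 1 : ℤ) : K) = ((d : ℤ) : K) := by rw [ha]
      push_cast at this ⊢
      linear_combination hθ2 / 4 - this / 4) (by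
      intro r hr
      apply hθq (2 * r - 1)
      push_cast
      linear_combination 2 * hr)
    exact ⟨a, 1, 1, hd, (fin e).1, by simp, Or.inl rfl, by linarith, (fin e).2⟩
  · have hF : Fund d 0 := Or.inr ⟨rfl, hs, by omega⟩
    obtain ⟨hd, ⟨e⟩⟩ := structure_thm hF K hK θ (by simpa using hθ2) hθq
    exact ⟨d, 0, 2, hd, (fin e).1, by simp, Or.inr rfl, by ring, (fin e).2⟩

open Classical in
theorem torsion_bound {d : ℤ} (hs : Squarefree d) (h1 : d ≠ 1) {l Y k : ℕ} (hl : l ≠ 0)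
    (hY : 100 * |d| ≤ (Y : ℤ) ^ 2) (hk : 100 * |d| < 2 ^ k) (P : Finset ℕ)
    (hP : ∀ p ∈ P, p.Prime ∧ Odd p ∧ ¬ (p : ℤ) ∣ d ∧ ∃ r : ℤ, (p : ℤ) ∣ r ^ 2 - d) :
    torsion l d ≤ (∑ m ∈ Icc 1 Y, 2 * m.divisors.card) * k ∧
    torsion l d * P.card ^ 2 ≤ (∑ m ∈ Icc 1 Y, 2 * m.divisors.card) * k * (P.card +
        ((P ×ˢ P).filter fun x => x.1 ≠ x.2 ∧ Sol l d (x.1 * x.2)).card) := by
  obtain ⟨a, b, f, _, _, hb, hf, hD, he⟩ := torsion_eq hs h1 l
  have d1 : 1 ≤ |d| := Int.one_le_abs hs.ne_zero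
  have f1 : 1 ≤ f ^ 2 ∧ f ^ 2 ≤ 4 := by rcases hf with rfl | rfl <;> norm_num
  have hA : |b ^ 2 + 4 * a| = f ^ 2 * |d| := by rw [hD, abs_mul, abs_of_nonneg (sq_nonneg f)]
  have hA1 : 1 ≤ |b ^ 2 + 4 * a| := by rw [hA]; nlinarith
  have hA2 : |b ^ 2 + 4 * a| ≤ 4 * |d| := by rw [hA]; nlinarith
  have hΔ : √|((b ^ 2 + 4 * a : ℤ) : ℝ)| ^ 2 = |((b ^ 2 + 4 * a : ℤ) : ℝ)| :=
    Real.sq_sqrt (abs_nonneg _)
  have f2 : ∀ p : ℕ, Odd p → IsCoprime f p := fun p hp => by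
    rcases hf with rfl | rfl
    · exact isCoprime_one_left
    · obtain ⟨k, rfl⟩ := hp
      exact ⟨-k, 1, by push_cast; ring⟩
  obtain ⟨c1, c2⟩ := torsion_le (Y := Y) (k := k) hb (Real.one_le_sqrt.2 (by exact_mod_cast hA1))
    hΔ hl (by
      refine le_of_sq_le_sq ?_ (Nat.cast_nonneg Y)
      rw [mul_pow, hΔ]
      have : 5 ^ 2 * |b ^ 2 + 4 * a| ≤ (Y : ℤ) ^ 2 := by linarith
      exact_mod_cast this) (by
      rw [hΔ]
      have : 25 * |b ^ 2 + 4 * a| < 2 ^ k := by linarith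
      exact_mod_cast this) P fun p hp => by
      obtain ⟨p1, p2, p3, r, hr⟩ := hP p hp
      rw [hD]
      refine ⟨p1, p2, fun h => p3 (((f2 p p2).symm.pow_right (n := 2)).dvd_of_dvd_mul_left h),
        f * r, (hr.mul_left (f ^ 2)).trans (dvd_of_eq (by ring))⟩
  have hr : ∑ m ∈ Icc 1 Y, (roots a b m).card ≤ ∑ m ∈ Icc 1 Y, 2 * m.divisors.card :=
    sum_le_sum fun m hm => card_roots_le two_pos (fun e he _ => (sqf_dvd hs (v := f)
      (by rwa [hD, mul_comm] at he)).trans (by rcases hf with rfl | rfl <;> norm_num))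
      (mem_Icc.1 hm).1
  rw [he]
  refine ⟨c1.trans (by gcongr), c2.trans ?_⟩
  gcongr with x hx
  obtain ⟨x1, x2⟩ := mem_product.1 hx
  rintro ⟨u, v, s1, s2, s3, s4⟩
  rw [hD] at s1 s3
  rw [hA] at s4
  refine ⟨u, f * v, by simpa only [mul_pow, mul_assoc, mul_left_comm d] using s1,
    (f2 _ ((hP _ x1).2.1.mul (hP _ x2).2.1)).mul_left s2, s3.of_mul_left_right, by
      simpa only [mul_pow, mul_assoc, mul_left_comm |d|] using s4⟩

end Pool.Agent.MP_d0fd9b_nt.H72
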